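import Pool.Agent.NH25.DG.Win
import Pool.Agent.Y921.DB.Nd
import Pool.Agent.Y921.DB.Cv

/-!
# Windows of algebraic points for the words in a matrix of G-functions
-/

set_option autoImplicit false

open PowerSeries Module

namespace Pool.Agent.NH25.DG

open Pool.Agent.Y113 Pool.Agent.Y113.GG Pool.Agent.Y37.GF Pool.Agent.Y118.HG Pool.Agent.Y916.Al Pool.Agent.Y921.DB

variable {n : ℕ}

/-- the value of a shifted series -/
lemma ec_ph {C : ℝ} (hC : 1 ≤ C) {f : ℚ⟦X⟧} (hf : ∀ m, |((coeff m f : ℚ) : ℝ)| ≤ C ^ (m + 1)) (g : ℕ) {t : ℂ}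
    (ht : g + C + 1 < ‖t‖) : SR (1 / ‖t‖) (ph g f) ∧ Ec (ph g f) (1 / t) = Ec f (1 / (t - g)) := by
  have hC0 : 0 < C := by linarith
  have hgt : (g : ℝ) < ‖t‖ := by linarith
  have ht0 : 0 < ‖t‖ := lt_of_le_of_lt (Nat.cast_nonneg g) hgt
  set r : ℝ := 1 / ‖t‖ with hr
  have hr0 : 0 ≤ r := by positivity
  have hz : ‖1 / t‖ ≤ r := by rw [norm_div, norm_one]
  have hsh : SR r (sh g) := by
    have h1 := (hasSum_sh g hgt).summable.norm
    refine h1.congr fun m => ?_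
    rw [norm_mul, norm_pow, norm_rat, norm_div, norm_one]
  have hEsh : E (sh g) r = 1 / (‖t‖ - g) := by
    have h1 : (g : ℝ) < ‖((‖t‖ : ℝ) : ℂ)‖ := by rw [Complex.norm_real, norm_norm]; exact hgt
    have h2 := hasSum_sh g h1
    have h3 : HasSum (fun m : ℕ => (((((coeff m (sh g) : ℚ) : ℝ) * r ^ m : ℝ)) : ℂ)) ((1 / (‖t‖ - g) : ℝ) : ℂ) := by
      have e : ((1 / (‖t‖ - g) : ℝ) : ℂ) = 1 / (((‖t‖ : ℝ) : ℂ) - g) := by push_cast; rfl
      rw [e]
      have e2 : (fun m : ℕ => (((((coeff m (sh g) : ℚ) : ℝ) * r ^ m : ℝ)) : ℂ)) =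
          fun m : ℕ => ((coeff m (sh g) : ℚ) : ℂ) * (1 / ((‖t‖ : ℝ) : ℂ)) ^ m := by
        ext m
        rw [hr]
        push_cast
        rfl
      rw [e2]
      exact h2
    exact (Complex.hasSum_ofReal.1 h3).tsum_eq
  have hle : 1 / (‖t‖ - g) ≤ 1 / (C + 1) := one_div_le_one_div_of_le (by linarith) (by linarith)
  have hfC : SR (1 / (C + 1)) f := Pool.Agent.Y37.GF.SR.of_bound (A := C) (by positivity) hC0.le
    (by rw [mul_one_div, div_lt_one (by linarith)]; linarith) fun m => by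
      rw [← pow_succ']; exact hf m
  have hsub := Pool.Agent.Y37.GF.subst_main (f := f) (Pool.Agent.Y37.GF.hasSubst_sh g)
    (Pool.Agent.Y37.GF.coeff_sh_nonneg g) hr0 hsh (hEsh.le.trans hle) hfC
  have h7 := Ec_subst (f := f) (z := 1 / t) (Pool.Agent.Y37.GF.hasSubst_sh g)
    (Pool.Agent.Y37.GF.coeff_sh_nonneg g) hr0 hsh (hEsh.le.trans hle) hfC hz
  have h8 : Ec (sh g) (1 / t) = 1 / (t - g) := (hasSum_sh g hgt).tsum_eq
  rw [h8] at h7
  rw [ph_eq]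
  exact ⟨hsub.1, h7⟩

/-- the value of a shifted word -/
lemma ec_phwd {Z : Fin n → Fin n → ℚ⟦X⟧} {C : ℝ} (hC : 1 ≤ C)
    (hZ : ∀ i j m, |((coeff m (Z i j) : ℚ) : ℝ)| ≤ C ^ (m + 1)) {δ : ℕ} (h : Fin δ → Option (Fin n × Fin n)) (g : ℕ)
    {t : ℂ} (ht : g + C + 1 < ‖t‖) : evc (1 / t) (ph g (wd Z h)) = wv (zc Z (1 / (t - g))) h := by
  have ht0 : 0 < ‖t‖ := by
    have : (0 : ℝ) ≤ g := Nat.cast_nonneg g
    linarith
  have hr0 : (0 : ℝ) ≤ 1 / ‖t‖ := by positivity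
  have hz : ‖1 / t‖ ≤ 1 / ‖t‖ := by rw [norm_div, norm_one]
  have h1 : ∀ a, SR (1 / ‖t‖) (ph g (lt Z (h a))) := by
    intro a
    unfold lt
    rcases h a with _ | ⟨i, j⟩
    · simp only [Option.elim, map_one]; exact SR.one _
    · exact (ec_ph hC (hZ i j) g ht).1
  show Ec (ph g (wd Z h)) (1 / t) = _
  unfold wd wv
  rw [map_prod]
  have h2 : ∀ s : Finset (Fin δ), Ec (∏ a ∈ s, ph g (lt Z (h a))) (1 / t) = ∏ a ∈ s, Ec (ph g (lt Z (h a))) (1 / t) := by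
    intro s
    classical
    induction s using Finset.induction_on with
    | empty => simp [Ec_one]
    | insert a s ha ih =>
      rw [Finset.prod_insert ha, Finset.prod_insert ha, Ec_mul (h1 a) (SR.prod _ hr0 fun a _ => h1 a) hz, ih]
  rw [h2]
  refine Finset.prod_congr rfl fun a _ => ?_
  unfold lt zc
  rcases h a with _ | ⟨i, j⟩
  · simp [Ec_one]
  · simp only [Option.elim]
    exact (ec_ph hC (hZ i j) g ht).2

/-- **Windows for the words** -/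
theorem winBad {f : Polynomial ℚ} {A : Fin n → Fin n → Polynomial ℚ} {Z W : Fin n → Fin n → ℚ⟦X⟧} (h : Dat f A Z W) :
    ∃ G0 : ℕ, 0 < G0 ∧ ∀ (δ : ℕ) (b : Bas Z δ) (m A₀ D : ℕ), ∃ M E : ℕ, ∀ V : Submodule ℚ ℂ, Module.Finite ℚ V →
      finrank ℚ V ≤ D → ∀ (H : ℕ) (K : IntermediateField ℚ ℂ) (ξ : K) (X : ℝ), FiniteDimensional ℚ K → finrank ℚ K ≤ m →
      Pt K ξ X → ((H : ℝ) + 2) ^ E ≤ ‖(ξ : ℂ)‖ → X ≤ ‖(ξ : ℂ)‖ ^ A₀ → ∀ S : Finset ℕ,
      (∀ g ∈ S, g ≤ H ∧ BadV V (fun e : b.s => wv (zc Z (1 / ((ξ : ℂ) - ((G0 * g : ℕ) : ℂ))))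
        (e : Fin δ → Option (Fin n × Fin n)))) → S.card ≤ M := by
  obtain ⟨C, hC, hCZ, hCW⟩ := h.bound
  obtain ⟨G0, hG0⟩ := exists_nat_gt (2 * C)
  have hG0pos : 0 < G0 := by
    have : (0 : ℝ) < G0 := by linarith
    exact_mod_cast this
  refine ⟨G0, hG0pos, fun δ b m A₀ D => ?_⟩
  obtain ⟨q, E, TT, hE, hE'⟩ := exists_sys h.reg h.sys h.inv h.gZ h.gW δ b.s b.D b.N b.hD b.red
  have hprod := Pool.Agent.Y678.HG.gsys_prod TT
    (fun g (k : b.s) => ph g (wd Z (k : Fin δ → Option (Fin n × Fin n)))) q E hE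
  have hTT : ∀ g, TT g ≠ 0 := by
    intro g h0
    obtain ⟨t, ht⟩ := exists_nat_ge (((g : ℝ) + 2) ^ E)
    have := hE' g t ht
    rw [h0, map_zero] at this
    exact this rfl
  obtain ⟨M, E₁, hME⟩ := win_abs (κ := b.s) ⟨fun _ => none, b.h0⟩ G0 TT
    (fun g (k : b.s) => ph g (wd Z (k : Fin δ → Option (Fin n × Fin n)))) hG0pos (by
      intro g
      have h3 : wd Z (fun _ : Fin δ => (none : Option (Fin n × Fin n))) = 1 := by
        unfold wd lt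
        simp
      show ph g (wd Z (fun _ : Fin δ => (none : Option (Fin n × Fin n)))) = 1
      rw [h3, map_one]) hprod (by
      intro r
      refine li_shifts h.reg h.sys h.inv hC hCZ hCW b.s b.li (fun r g => ?_) hG0 r
      obtain ⟨q', E', hq⟩ := hprod r
      exact ⟨q', ((((Finset.univ.sup g : ℕ) : ℝ)) + 2) ^ E', ∏ l, TT (g l),
        Finset.prod_ne_zero_iff.2 fun l _ => hTT _, hq (Finset.univ.sup g) g fun l => Finset.le_sup (Finset.mem_univ l)⟩)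
    hTT m A₀ D
  obtain ⟨c₁, hc₁⟩ := Pool.Agent.Y678.HG.exists_two_pow (G0 + C + 2)
  refine ⟨M, E₁ + (c₁ + 2), fun V hV hVD H K ξ X hKf hKd hPt hξ hX S hS => ?_⟩
  have hH0 : (0 : ℝ) ≤ H := Nat.cast_nonneg H
  have hH1 : (1 : ℝ) ≤ (H : ℝ) + 2 := by linarith
  refine hME V hV hVD H K ξ X hKf hKd hPt ((pow_le_pow_right₀ hH1 (by omega)).trans hξ) hX S fun g hg => ?_
  obtain ⟨hgH, hgb⟩ := hS g hg
  refine ⟨hgH, ?_⟩
  have h1 : (((G0 * g : ℕ) : ℝ)) + C + 1 < ‖(ξ : ℂ)‖ := by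
    have h2 : ((H : ℝ) + 2) ^ (c₁ + 1) ≤ ‖(ξ : ℂ)‖ := (pow_le_pow_right₀ hH1 (by omega)).trans hξ
    have h3 : (G0 : ℝ) + C + 2 ≤ ((H : ℝ) + 2) ^ c₁ := by
      have : (G0 : ℝ) + C + 2 ≤ 2 ^ c₁ := by linarith
      exact this.trans (pow_le_pow_left₀ (by norm_num) (by linarith) _)
    have h4 : ((G0 : ℝ) + C + 2) * ((H : ℝ) + 2) ≤ ‖(ξ : ℂ)‖ := by
      refine le_trans ?_ h2
      rw [pow_succ]
      exact mul_le_mul_of_nonneg_right h3 (by linarith)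
    have h5 : ((G0 * g : ℕ) : ℝ) ≤ G0 * H := by
      push_cast
      exact mul_le_mul_of_nonneg_left (by exact_mod_cast hgH) (Nat.cast_nonneg _)
    have h6 : (0 : ℝ) ≤ G0 := Nat.cast_nonneg _
    nlinarith
  have h2 : (fun e : b.s => evc (1 / (ξ : ℂ)) (ph (G0 * g) (wd Z (e : Fin δ → Option (Fin n × Fin n))))) =
      fun e : b.s => wv (zc Z (1 / ((ξ : ℂ) - ((G0 * g : ℕ) : ℂ)))) (e : Fin δ → Option (Fin n × Fin n)) := by
    funext e
    exact ec_phwd hC hCZ _ _ h1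
  show BadV V (fun e : b.s => evc (1 / (ξ : ℂ)) (ph (G0 * g) (wd Z (e : Fin δ → Option (Fin n × Fin n)))))
  rw [h2]
  exact hgb

/-- the values of the basis words are linearly independent over `V` -/
def NdC {Z : Fin n → Fin n → ℚ⟦X⟧} {δ : ℕ} (b : Bas Z δ) {k : ℕ} (V : Submodule ℚ ℂ) (z : Fin k → ℂ) : Prop :=
  ∀ c : (Fin k → b.s) → ℂ, (∀ e, c e ∈ V) →
    ∑ e, c e * ∏ l, wv (zc Z (z l)) (e l : Fin δ → Option (Fin n × Fin n)) = 0 → c = 0

/-- enlarging the point set: one more point -/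
lemma ndC_split {Z : Fin n → Fin n → ℚ⟦X⟧} {δ k : ℕ} (b : Bas Z δ) {V : Submodule ℚ ℂ} {z : Fin (k + 1) → ℂ}
    (h1 : NdC b V (fun i => z i.succ))
    (h2 : ¬ BadV (V * sp (fun e : Fin k → b.s => ∏ l, wv (zc Z (z l.succ)) (e l : Fin δ → Option (Fin n × Fin n))))
      (fun e : b.s => wv (zc Z (z 0)) (e : Fin δ → Option (Fin n × Fin n)))) : NdC b V z := by
  classical
  intro c hcV hsum
  set w : (Fin k → b.s) → ℂ := fun e => ∏ l, wv (zc Z (z l.succ)) (e l : Fin δ → Option (Fin n × Fin n)) with hw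
  have hsum2 : ∑ e0 : b.s, (∑ e : Fin k → b.s, c (Fin.cons e0 e) * w e) *
      wv (zc Z (z 0)) (e0 : Fin δ → Option (Fin n × Fin n)) = 0 := by
    rw [← hsum, ← (Fin.consEquiv fun _ => b.s).sum_comp, Fintype.sum_prod_type]
    refine Finset.sum_congr rfl fun e0 _ => ?_
    rw [Finset.sum_mul]
    refine Finset.sum_congr rfl fun e _ => ?_
    rw [Fin.prod_univ_succ]
    simp only [Fin.consEquiv, Equiv.coe_fn_mk, Fin.cons_zero, Fin.cons_succ]
    rw [hw]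
    ring
  have hd : ∀ e0 : b.s, ∑ e : Fin k → b.s, c (Fin.cons e0 e) * w e = 0 := by
    by_contra hcon
    refine h2 ⟨fun e0 => ∑ e : Fin k → b.s, c (Fin.cons e0 e) * w e, fun h0 => hcon fun e0 => congrFun h0 e0, fun e0 => ?_,
      hsum2⟩
    refine Submodule.sum_mem _ fun e' _ => ?_
    exact Submodule.mul_mem_mul (hcV _) (sp_mem w e')
  funext e
  have h4 := h1 (fun e' => c (Fin.cons (e 0) e')) (fun e' => hcV _) (hd (e 0))
  have h5 := congrFun h4 (fun i => e i.succ)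
  have h6 : (Fin.cons (e 0) (fun i : Fin k => e i.succ) : Fin (k + 1) → b.s) = e := by
    funext i
    refine Fin.cases ?_ (fun i => ?_) i <;> simp
  simp only [h6] at h5
  exact h5

/-- no points: nothing to prove -/
lemma ndC_zero {Z : Fin n → Fin n → ℚ⟦X⟧} {δ : ℕ} (b : Bas Z δ) {V : Submodule ℚ ℂ} (z : Fin 0 → ℂ) : NdC b V z := by
  intro c _ hsum
  funext e
  rw [Fintype.sum_eq_single e (fun x hx => absurd (Subsingleton.elim x e) hx), Finset.univ_eq_empty, Finset.prod_empty,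
    mul_one] at hsum
  exact hsum

end Pool.Agent.NH25.DG
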