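import Pool.Agent.NH25.AP.Cnt
import Pool.Agent.NH25.DG.Nd

/-!
# Algebraic points of bounded degree: counting
-/

set_option autoImplicit false

open PowerSeries Module

namespace Pool.Agent.NH25.DG

open Pool.Agent.Y113 Pool.Agent.Y916 Pool.Agent.Y916.Al

/-- the field generated by `x` -/
noncomputable def Qs (x : ℂ) : Submodule ℚ ℂ := Subalgebra.toSubmodule (IntermediateField.adjoin ℚ {x}).toSubalgebra

theorem Qs_fin {m : ℕ} {T : ℝ} {ξ : ℂ} (h : Sl.AInt m T ξ) : Module.Finite ℚ (Qs ξ) ∧ finrank ℚ (Qs ξ) ≤ m := by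
  obtain ⟨f, h1, h2, h3, -⟩ := h
  have hint : IsIntegral ℤ ξ := ⟨f, h1, h3⟩
  have hintQ : IsIntegral ℚ ξ := hint.tower_top
  have hfQ : Polynomial.aeval ξ (f.map (Int.castRingHom ℚ)) = 0 :=
    (Polynomial.aeval_map_algebraMap ℚ ξ f).trans h3
  refine ⟨IntermediateField.adjoin.finiteDimensional hintQ, ?_⟩
  have h4 : finrank ℚ (Qs ξ) = finrank ℚ (IntermediateField.adjoin ℚ {ξ}) := rfl
  rw [h4, IntermediateField.adjoin.finrank hintQ]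
  refine (Polynomial.natDegree_le_of_dvd (minpoly.dvd ℚ ξ hfQ) (h1.map _).ne_zero).trans ?_
  rw [h1.natDegree_map, h2]

theorem adj_add_le (ξ : ℂ) (n : ℕ) : IntermediateField.adjoin ℚ {ξ + (n : ℂ)} ≤ IntermediateField.adjoin ℚ {ξ} := by
  rw [IntermediateField.adjoin_simple_le_iff]
  exact add_mem (IntermediateField.mem_adjoin_simple_self ℚ ξ) (natCast_mem _ n)

theorem adj_le_add (ξ : ℂ) (n : ℕ) : IntermediateField.adjoin ℚ {ξ} ≤ IntermediateField.adjoin ℚ {ξ + (n : ℂ)} := by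
  rw [IntermediateField.adjoin_simple_le_iff]
  have h1 : ξ = (ξ + n) - n := by ring
  rw [h1]
  refine sub_mem ?_ (natCast_mem _ n)
  rw [sub_add_cancel]
  exact IntermediateField.mem_adjoin_simple_self ℚ _

theorem Qs_add (ξ : ℂ) (n : ℕ) : Qs (ξ + n) = Qs ξ := by
  unfold Qs
  rw [le_antisymm (adj_add_le ξ n) (adj_le_add ξ n)]

theorem AInt.add {m : ℕ} {T : ℝ} {ξ : ℂ} (hξ : Sl.AInt m T ξ) (g : ℕ) : Sl.AInt m (T + g) (ξ + g) := by
  obtain ⟨f, h1, h2, h3, h4⟩ := hξ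
  have hev : ∀ z : ℂ, Polynomial.aeval z (f.comp (Polynomial.X - Polynomial.C (g : ℤ))) = Polynomial.aeval (z - g) f := by
    intro z
    rw [Polynomial.aeval_comp]
    congr 1
    simp
  refine ⟨f.comp (Polynomial.X - Polynomial.C (g : ℤ)), h1.comp_X_sub_C _, ?_, ?_, fun z hz => ?_⟩
  · rw [Polynomial.natDegree_comp, Polynomial.natDegree_X_sub_C, mul_one, h2]
  · rw [hev, add_sub_cancel_right]
    exact h3
  · rw [hev] at hz
    have h5 := h4 _ hz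
    have h6 := norm_sub_norm_le z (g : ℂ)
    rw [Complex.norm_natCast] at h6
    linarith

/-- the rescaled point -/
theorem pt_quot {m a : ℕ} (ha : 1 ≤ a) {T : ℝ} (hT : 1 ≤ T) {ξ : ℂ} (hξ : Sl.AInt m T ξ) :
    ∃ (K : IntermediateField ℚ ℂ) (ξ' : K), FiniteDimensional ℚ K ∧ finrank ℚ K ≤ m ∧ (ξ' : ℂ) = ξ / a ∧
      Al.Pt K ξ' (a * T) := by
  obtain ⟨K, ξ', h1, h2, h3, u, w, hu, hw, hw0, hx, hσ⟩ := hξ.pt hT
  have haR : (1 : ℝ) ≤ a := by exact_mod_cast ha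
  have ha0 : (a : K) ≠ 0 := by exact_mod_cast (by omega : a ≠ 0)
  have haI : IsIntegral ℤ (a : K) := by
    have h1 : ((a : ℤ) : K) = (a : K) := by norm_cast
    rw [← h1, ← eq_intCast (algebraMap ℤ K)]
    exact isIntegral_algebraMap
  refine ⟨K, ξ' / a, h1, h2, by push_cast; rw [h3], u, a * w, hu, haI.mul hw, mul_ne_zero ha0 hw0, ?_,
    fun σ => ⟨?_, ?_⟩⟩
  · rw [hx]
    field_simp
  · refine (hσ σ).1.trans ?_
    nlinarith
  · rw [map_mul, map_natCast, norm_mul, Complex.norm_natCast]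
    exact mul_le_mul_of_nonneg_left (hσ σ).2 (by linarith)

open Classical in
/-- few bad points, uniformly in the denominators -/
theorem cnt1 {G : ℕ} (hG : 1 ≤ G) (m : ℕ) (Bd : Submodule ℚ ℂ → ℂ → Prop)
    (hw : ∀ A₀ D : ℕ, ∃ M E : ℕ, ∀ V : Submodule ℚ ℂ, Module.Finite ℚ V → finrank ℚ V ≤ D → ∀ (H : ℕ)
      (K : IntermediateField ℚ ℂ) (ξ : K) (X : ℝ), FiniteDimensional ℚ K → finrank ℚ K ≤ m → Pt K ξ X →
      ((H : ℝ) + 2) ^ E ≤ ‖(ξ : ℂ)‖ → X ≤ ‖(ξ : ℂ)‖ ^ A₀ → ∀ S : Finset ℕ,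
      (∀ g ∈ S, g ≤ H ∧ Bd V ((ξ : ℂ) - ((G * g : ℕ) : ℂ))) → S.card ≤ M)
    {η : ℝ} (hη : 0 < η) (hη1 : η ≤ 1) (D : ℕ) :
    ∃ c : ℝ, 0 < c ∧ ∃ C : ℝ, 0 ≤ C ∧ ∀ V : Submodule ℚ ℂ, Module.Finite ℚ V → finrank ℚ V ≤ D → ∀ T : ℕ, 1 ≤ T →
      ∀ a : ℕ, (1 ≤ a ∧ (a : ℝ) ≤ (T : ℝ) ^ (1 - η)) →
      (((Sl.NF m T).filter fun ξ => Bd (V * Qs ξ) (ξ / a)).card : ℝ) ≤
        C * (T : ℝ) ^ ((Sl.Mm m : ℝ) - c) := by
  obtain ⟨A₀, hA₀⟩ := exists_nat_ge (12 / η)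
  obtain ⟨M, E, hwin⟩ := hw A₀ (D * m)
  have hGR : (1 : ℝ) ≤ G := by exact_mod_cast hG
  have hG0 : (G : ℂ) ≠ 0 := by exact_mod_cast (by omega : G ≠ 0)
  set E' := E + 3 with hE'
  have hE'0 : (0 : ℝ) < E' := by positivity
  set ε : ℝ := η / (4 * E') with hε
  have hε0 : 0 < ε := by positivity
  have hE'1 : (1 : ℝ) ≤ E' := by exact_mod_cast (by omega : 1 ≤ E')
  have hεη : ε ≤ η / 4 := by
    rw [hε]
    refine div_le_div_of_nonneg_left hη.le (by norm_num) ?_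
    linarith
  set C₀ : ℝ := (3 * 2 ^ m) ^ m * m with hC₀
  have hC₀0 : 0 ≤ C₀ := by positivity
  -- the threshold
  obtain ⟨T₀, hT₀1, hT₀⟩ : ∃ T₀ : ℕ, 1 ≤ T₀ ∧ ∀ T : ℕ, T₀ ≤ T → (3 * G : ℝ) ≤ (T : ℝ) ^ ε := by
    have h1 : Filter.Tendsto (fun T : ℕ => (T : ℝ) ^ ε) Filter.atTop Filter.atTop :=
      (tendsto_rpow_atTop hε0).comp tendsto_natCast_atTop_atTop
    obtain ⟨n, hn⟩ := (h1.eventually_ge_atTop (3 * G : ℝ)).exists_forall_of_atTop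
    exact ⟨n + 1, by omega, fun T hT => hn T (by omega)⟩
  have hT₀R : (1 : ℝ) ≤ T₀ := by exact_mod_cast hT₀1
  refine ⟨ε, hε0, M * (C₀ * 2 ^ Sl.Mm m) + 4 * C₀ + C₀ * (T₀ : ℝ) ^ ε, by positivity,
    fun V hV hVD T hT a ⟨ha, haT⟩ => ?_⟩
  have hT1 : (1 : ℝ) ≤ T := by exact_mod_cast hT
  have hT0 : (0 : ℝ) < T := by linarith
  have haR : (1 : ℝ) ≤ a := by exact_mod_cast ha
  have ha0 : (a : ℂ) ≠ 0 := by exact_mod_cast (by omega : a ≠ 0)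
  obtain ⟨Bb, hBb⟩ : ∃ Bb : ℂ → Prop, ∀ ξ, Bb ξ ↔ Bd (V * Qs ξ) (ξ / a) := ⟨_, fun _ => Iff.rfl⟩
  have hgoal : ((Sl.NF m T).filter fun ξ => Bd (V * Qs ξ) (ξ / a)) = (Sl.NF m T).filter fun ξ => Bb ξ := by
    ext ξ
    simp only [Finset.mem_filter, hBb]
  rw [hgoal]
  have hcardT := Sl.card_NF m T hT
  have hbase : 0 ≤ (T : ℝ) ^ ((Sl.Mm m : ℝ) - ε) := by positivity
  rcases lt_or_ge T T₀ with hTT | hTT
  · have h1 : (((Sl.NF m T).filter fun ξ => Bb ξ).card : ℝ) ≤ C₀ * (T : ℝ) ^ Sl.Mm m :=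
      le_trans (by exact_mod_cast Finset.card_filter_le _ _) hcardT
    refine h1.trans ?_
    have h2 : (T : ℝ) ^ Sl.Mm m = (T : ℝ) ^ ε * (T : ℝ) ^ ((Sl.Mm m : ℝ) - ε) := by
      rw [← Real.rpow_add hT0, ← Real.rpow_natCast]
      congr 1
      ring
    have h3 : (T : ℝ) ^ ε ≤ (T₀ : ℝ) ^ ε := Real.rpow_le_rpow hT0.le (by exact_mod_cast hTT.le) hε0.le
    rw [h2]
    calc C₀ * ((T : ℝ) ^ ε * (T : ℝ) ^ ((Sl.Mm m : ℝ) - ε)) ≤ C₀ * ((T₀ : ℝ) ^ ε * (T : ℝ) ^ ((Sl.Mm m : ℝ) - ε)) :=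
          mul_le_mul_of_nonneg_left (mul_le_mul_of_nonneg_right h3 hbase) hC₀0
      _ = (C₀ * (T₀ : ℝ) ^ ε) * (T : ℝ) ^ ((Sl.Mm m : ℝ) - ε) := by ring
      _ ≤ _ := mul_le_mul_of_nonneg_right (by
          have : 0 ≤ (M : ℝ) * (C₀ * 2 ^ Sl.Mm m) + 4 * C₀ := by positivity
          linarith) hbase
  -- the main case
  set b : ℝ := (T : ℝ) ^ ε with hb
  have hb3 : (3 * G : ℝ) ≤ b := hT₀ T hTT
  have hb1 : 1 ≤ b := by linarith
  have hb0 : 0 ≤ b := by linarith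
  set σ : ℝ := (T : ℝ) ^ (η / 2) with hσ
  have hσ0 : 0 < σ := by positivity
  have hbσ : (b ^ 2) ^ E' = σ := by
    rw [hb, hσ, ← pow_mul, ← Real.rpow_natCast ((T : ℝ) ^ ε), ← Real.rpow_mul hT0.le]
    congr 1
    rw [hε]
    push_cast
    field_simp
    ring
  have hb2 : 1 ≤ b ^ 2 := one_le_pow₀ hb1
  have hb4σ : b ^ 2 * b ^ 2 ≤ σ := by
    rw [← hbσ, ← pow_two]
    exact pow_le_pow_right₀ hb2 (by omega)
  have h2b2 : 2 ≤ b ^ 2 := by nlinarith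
  have hb2σ : b ^ 2 ≤ σ := by nlinarith
  have hσ1 : 1 ≤ σ := hb2.trans hb2σ
  set s : ℝ := a * σ with hs
  have hs1 : 1 ≤ s := by nlinarith
  have hs0 : 0 < s := by linarith
  have hsT' : s ≤ (T : ℝ) ^ (1 - η / 2) := by
    have h1 : (T : ℝ) ^ (1 - η / 2) = (T : ℝ) ^ (1 - η) * (T : ℝ) ^ (η / 2) := by
      rw [← Real.rpow_add hT0]
      congr 1
      ring
    rw [h1, hs, hσ]
    exact mul_le_mul_of_nonneg_right haT (by positivity)
  have hsT : s ≤ T := by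
    refine hsT'.trans ?_
    calc (T : ℝ) ^ (1 - η / 2) ≤ (T : ℝ) ^ (1 : ℝ) := Real.rpow_le_rpow_of_exponent_le hT1 (by linarith)
      _ = T := Real.rpow_one _
  have haT1 : (a : ℝ) ≤ T := by
    refine haT.trans ?_
    calc (T : ℝ) ^ (1 - η) ≤ (T : ℝ) ^ (1 : ℝ) := Real.rpow_le_rpow_of_exponent_le hT1 (by linarith)
      _ = T := Real.rpow_one _
  set H : ℕ := ⌊b⌋₊ with hH
  have hHb : (H : ℝ) ≤ b := Nat.floor_le (by positivity)
  have hH0 : (0 : ℝ) ≤ H := Nat.cast_nonneg H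
  have hH2b : (H : ℝ) + 2 ≤ b ^ 2 := by nlinarith
  have hHE : 2 * ((H : ℝ) + 2) ^ E ≤ σ := by
    rw [← hbσ]
    calc 2 * ((H : ℝ) + 2) ^ E ≤ b ^ 2 * (b ^ 2) ^ E :=
          mul_le_mul h2b2 (pow_le_pow_left₀ (by positivity) hH2b _) (by positivity) (by positivity)
      _ = (b ^ 2) ^ (E + 1) := by rw [pow_succ (b ^ 2) E, mul_comm]
      _ ≤ _ := pow_le_pow_right₀ hb2 (by omega)
  have hGHb : (G : ℝ) * H ≤ b ^ 2 := by nlinarith
  have hGHσ : 2 * ((G : ℝ) * H) ≤ σ := by nlinarith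
  have hHs : ((G * a * H : ℕ) : ℝ) ≤ s := by
    push_cast
    rw [hs]
    nlinarith
  have hHTn : G * a * H ≤ T := by exact_mod_cast hHs.trans hsT
  have hTb : b ≤ T := by
    rw [hb]
    calc (T : ℝ) ^ ε ≤ (T : ℝ) ^ (1 : ℝ) := Real.rpow_le_rpow_of_exponent_le hT1 (by linarith)
      _ = T := Real.rpow_one _
  have hT3 : (3 : ℝ) * (T * T) ≤ T ^ 3 := by
    have h1 : (3 : ℝ) ≤ T := by nlinarith
    have : 0 ≤ (T : ℝ) * T := by positivity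
    nlinarith
  have hdc := Af.double_countG m (G * a) Bb M H T s hHTn hHs (by
    intro ξ hξ hsξ S hS
    have hξ2 : Sl.AInt m (((2 * T : ℕ) : ℝ) + ((G * a * H : ℕ) : ℝ)) (ξ + ((G * a * H : ℕ) : ℂ)) := AInt.add hξ _
    have hTT3 : ((2 * T : ℕ) : ℝ) + ((G * a * H : ℕ) : ℝ) ≤ 3 * T := by
      have : ((G * a * H : ℕ) : ℝ) ≤ T := hHs.trans hsT
      have h2 : ((2 * T : ℕ) : ℝ) = 2 * T := by push_cast; ring
      rw [h2]
      linarith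
    obtain ⟨K, ξ', hKf, hKd, hξ', hPt⟩ := pt_quot ha (T := 3 * T) (by linarith) (hξ2.mono hTT3)
    obtain ⟨hQf, hQd⟩ := Qs_fin hξ
    obtain ⟨hVf, hVd⟩ := finrank_mul_le V (Qs ξ)
    have hn : σ / 2 ≤ ‖(ξ' : ℂ)‖ := by
      rw [hξ', norm_div, Complex.norm_natCast, div_le_div_iff₀ (by norm_num) (by linarith)]
      have h1 := norm_sub_norm_le ξ (-((G * a * H : ℕ) : ℂ))
      rw [norm_neg, Complex.norm_natCast, sub_neg_eq_add] at h1
      have h2 : ((G * a * H : ℕ) : ℝ) = a * (G * H) := by push_cast; ring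
      have h3 : (a : ℝ) * (2 * ((G : ℝ) * H)) ≤ a * σ := mul_le_mul_of_nonneg_left hGHσ (by linarith)
      have h4 : a * σ ≤ ‖ξ‖ := hsξ
      rw [h2] at h1
      nlinarith
    have hfun : ∀ g, g ≤ H → (ξ' : ℂ) - ((G * (H - g) : ℕ) : ℂ) = (ξ + ((G * a * g : ℕ) : ℂ)) / a := by
      intro g hg
      rw [hξ']
      push_cast [Nat.cast_sub hg]
      field_simp
      ring
    have hinj : Set.InjOn (fun g => H - g) (S : Set ℕ) := by
      intro g hg g' hg' hgg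
      have h1 := (hS g hg).1
      have h2 := (hS g' hg').1
      simp only at hgg
      omega
    rw [← Finset.card_image_of_injOn hinj]
    refine hwin (V * Qs ξ) hVf (hVd.trans (Nat.mul_le_mul hVD hQd)) H K ξ' _ hKf hKd hPt ?_ ?_ _ ?_
    · linarith
    · have h1 : (T : ℝ) ^ (η / 4) ≤ ‖(ξ' : ℂ)‖ := by
        refine le_trans ?_ hn
        rw [le_div_iff₀ (by norm_num)]
        have h2 : (T : ℝ) ^ (η / 4) * (T : ℝ) ^ (η / 4) = σ := by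
          rw [hσ, ← Real.rpow_add hT0]
          congr 1
          ring
        have h3 : 2 ≤ (T : ℝ) ^ (η / 4) := by
          refine le_trans (by linarith : (2 : ℝ) ≤ b) ?_
          rw [hb]
          exact Real.rpow_le_rpow_of_exponent_le hT1 hεη
        rw [← h2]
        exact mul_le_mul_of_nonneg_left h3 (by positivity)
      have h2 : (T : ℝ) ^ 3 ≤ ‖(ξ' : ℂ)‖ ^ A₀ := by
        refine le_trans ?_ (pow_le_pow_left₀ (by positivity) h1 A₀)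
        rw [← Real.rpow_natCast ((T : ℝ) ^ (η / 4)) A₀, ← Real.rpow_mul hT0.le, ← Real.rpow_natCast (T : ℝ) 3]
        refine Real.rpow_le_rpow_of_exponent_le hT1 ?_
        have h3 : 12 ≤ A₀ * η := by
          rw [div_le_iff₀ hη] at hA₀
          exact hA₀
        push_cast
        linarith
      refine le_trans ?_ (hT3.trans h2)
      have h4 : (a : ℝ) * T ≤ T * T := mul_le_mul_of_nonneg_right haT1 hT0.le
      linarith
    · intro g' hg'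
      obtain ⟨g, hg, rfl⟩ := Finset.mem_image.1 hg'
      obtain ⟨h1, h2⟩ := hS g hg
      refine ⟨by omega, ?_⟩
      have h3 := (hBb _).1 h2
      rw [Qs_add] at h3
      rw [hfun g h1]
      exact h3)
  -- the large points
  set L := (Sl.NF m T).filter fun ξ => Bb ξ ∧ 2 * s ≤ ‖ξ‖ with hL
  have hLc : (L.card : ℝ) ≤ M * (C₀ * 2 ^ Sl.Mm m) * (T : ℝ) ^ ((Sl.Mm m : ℝ) - ε) := by
    have h1 : (L.card : ℝ) * ((H : ℝ) + 1) ≤ M * ((Sl.NF m (2 * T)).card : ℝ) := by exact_mod_cast hdc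
    have h2 : (T : ℝ) ^ ε ≤ (H : ℝ) + 1 := (Nat.lt_floor_add_one _).le
    have h3 := Sl.card_NF m (2 * T) (by omega)
    have h4 : (L.card : ℝ) * (T : ℝ) ^ ε ≤ M * (C₀ * 2 ^ Sl.Mm m) * (T : ℝ) ^ Sl.Mm m := by
      calc (L.card : ℝ) * (T : ℝ) ^ ε ≤ (L.card : ℝ) * ((H : ℝ) + 1) := mul_le_mul_of_nonneg_left h2 (Nat.cast_nonneg _)
        _ ≤ M * ((Sl.NF m (2 * T)).card : ℝ) := h1
        _ ≤ M * (C₀ * ((2 * T : ℕ) : ℝ) ^ Sl.Mm m) := mul_le_mul_of_nonneg_left h3 (Nat.cast_nonneg _)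
        _ = _ := by push_cast; rw [mul_pow]; ring
    have h5 : (T : ℝ) ^ ((Sl.Mm m : ℝ) - ε) = (T : ℝ) ^ Sl.Mm m / (T : ℝ) ^ ε := by
      rw [Real.rpow_sub hT0, Real.rpow_natCast]
    rw [h5, ← mul_div_assoc, le_div_iff₀ (by positivity)]
    exact h4
  -- the small points
  set Sm := (Sl.NF m T).filter fun ξ => ‖ξ‖ ≤ 2 * s with hSm
  have hSc : (Sm.card : ℝ) ≤ 4 * C₀ * (T : ℝ) ^ ((Sl.Mm m : ℝ) - ε) := by
    have hks : 2 * s ≤ (T : ℝ) ^ (1 - ε) := by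
      have h1 : (T : ℝ) ^ (1 - ε) = (T : ℝ) ^ (1 - η / 2) * (T : ℝ) ^ (η / 2 - ε) := by
        rw [← Real.rpow_add hT0]
        congr 1
        ring
      have h2 : 2 ≤ (T : ℝ) ^ (η / 2 - ε) := by
        refine le_trans (by linarith : (2 : ℝ) ≤ b) ?_
        rw [hb]
        exact Real.rpow_le_rpow_of_exponent_le hT1 (by linarith)
      rw [h1]
      calc 2 * s = s * 2 := mul_comm _ _
        _ ≤ _ := mul_le_mul hsT' h2 (by norm_num) (by positivity)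
    have h1 := AP.small_le m T hT (κ := ε) (b := 2 * s) (by linarith) hks
    refine h1.trans ?_
    refine mul_le_mul_of_nonneg_right ?_ hbase
    linarith
  have hcov : (Sl.NF m T).filter (fun ξ => Bb ξ) ⊆ L ∪ Sm := by
    intro ξ hξ
    obtain ⟨hξ1, hξ2⟩ := Finset.mem_filter.1 hξ
    rw [Finset.mem_union]
    rcases le_total (2 * s) ‖ξ‖ with h | h
    · exact Or.inl (Finset.mem_filter.2 ⟨hξ1, hξ2, h⟩)
    · exact Or.inr (Finset.mem_filter.2 ⟨hξ1, h⟩)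
  calc (((Sl.NF m T).filter fun ξ => Bb ξ).card : ℝ) ≤ ((L ∪ Sm).card : ℝ) := by exact_mod_cast Finset.card_le_card hcov
    _ ≤ L.card + Sm.card := by exact_mod_cast Finset.card_union_le _ _
    _ ≤ M * (C₀ * 2 ^ Sl.Mm m) * (T : ℝ) ^ ((Sl.Mm m : ℝ) - ε) + 4 * C₀ * (T : ℝ) ^ ((Sl.Mm m : ℝ) - ε) :=
        add_le_add hLc hSc
    _ = (M * (C₀ * 2 ^ Sl.Mm m) + 4 * C₀) * (T : ℝ) ^ ((Sl.Mm m : ℝ) - ε) := by ring
    _ ≤ _ := mul_le_mul_of_nonneg_right (by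
        have : 0 ≤ C₀ * (T₀ : ℝ) ^ ε := by positivity
        linarith) hbase

end Pool.Agent.NH25.DG
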