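import Pool.Agent.NH25.DG.Fam

/-!
# Products of families of cyclic covers, and constants
-/

set_option autoImplicit false

open PowerSeries Module

namespace Pool.Agent.NH25.DG

open Pool.Agent.Y113 Pool.Agent.Y113.GG Pool.Agent.Y37.GF Pool.Agent.Y118.HG Pool.Agent.Y916 Pool.Agent.Y921.DB

/-- periods and constants -/
noncomputable def PC {p q : ℕ} (F : Fam p) (w : Fin q → ℂ) (z : Fin p → ℂ) : F.τ ⊕ Fin q → ℂ := Sum.elim (F.P z) w

/-- **The periods and constants are represented by G-functions over a number field.** -/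
theorem rep_PC {p q : ℕ} (F : Fam p) (l₀ : Fin p) (w : Fin q → ℂ) : ∃ (L : Type) (_ : Field L) (_ : NumberField L)
    (_ : Algebra L ℂ) (M : ℕ) (f : Polynomial L) (A : Fin M → Fin M → Polynomial L) (Z W : Fin M → Fin M → L⟦X⟧) (r : ℝ),
      DatL f A Z W ∧ 0 < r ∧ (∀ l, r ≤ F.ρ l) ∧
      Nonempty (Rep (nn := fun _ => M) (PC F w) r (fun _ => Z)) := by
  obtain ⟨L, i1, i2, i3, M, f, A, Z, W, lam, r, hD, hr, hrρ, h0, hrep⟩ := F.rep
  refine ⟨L, i1, i2, i3, M, f, A, Z, W, r, hD, hr, hrρ, ⟨⟨Sum.elim (fun v => v.1) (fun _ => l₀),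
    Sum.elim (fun v => lam v.1 v none) w, fun i => Sum.elim (fun v (a b : Fin M) => lam v.1 v (some (a, b)))
      (fun _ _ _ => 0) i, fun z hz i => ?_⟩⟩⟩
  rcases i with v | j
  · show F.P z v = _
    rw [hrep z hz v]
    unfold ptL
    rw [Fintype.sum_option, Fintype.sum_prod_type]
    simp only [Option.elim_none, Option.elim_some, mul_one]
    rfl
  · show w j = _
    simp

open Classical in
/-- **Counting, products of families of cyclic covers** -/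
theorem cyc_count {p q : ℕ} (F : Fam p) (l₀ : Fin p) (w : Fin q → ℂ) :
    ∃ r : ℝ, 0 < r ∧ (∀ l, r ≤ F.ρ l) ∧ ∀ (δ D : ℕ) (m : Fin p → ℕ) (η : ℝ), 0 < η → η ≤ 1 → ∃ c C : ℝ, 0 < c ∧ 0 ≤ C ∧
      ∀ K₀ : IntermediateField ℚ ℂ, FiniteDimensional ℚ K₀ → finrank ℚ K₀ ≤ D → ∀ T : ℕ, 1 ≤ T →
      ∀ a : Fin p → ℕ, (∀ i, 1 ≤ a i ∧ (a i : ℝ) ≤ (T : ℝ) ^ (1 - η)) →
      (((Fintype.piFinset fun l : Fin p => Sl.NF (m l) T).filter fun β =>
        ¬ ((∀ l, ‖(a l : ℂ) / β l‖ < r) ∧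
          SpecQ (K₀ ⊔ IntermediateField.adjoin ℚ (Set.range fun l => (a l : ℂ) / β l)) (PC F w) r δ
            (fun l => (a l : ℂ) / β l))).card : ℝ) ≤ C * (T : ℝ) ^ (((∑ l, Sl.Mm (m l) : ℕ) : ℝ) - c) := by
  obtain ⟨L, i1, i2, i3, M, f, A, Z, W, r₀, hD, hr₀, hrρ, ⟨R⟩⟩ := rep_PC F l₀ w
  obtain ⟨r, hr, hrr, hall⟩ := R.count hr₀ (f := fun _ => f) (A := fun _ => A) (W := fun _ => W) fun _ => hD
  exact ⟨r, hr, fun l => hrr.trans (hrρ l), hall⟩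

end Pool.Agent.NH25.DG
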