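import Pool.Agent.NH25.DG.Main
import Pool.Agent.Y921.DB.Fin

/-!
# The degree statement at almost all algebraic points of bounded degree, for systems over number fields and for
products of families of cyclic covers
-/

set_option autoImplicit false

open PowerSeries Module

namespace Pool.Agent.NH25.DG

open Pool.Agent.Y113 Pool.Agent.Y113.GG Pool.Agent.Y37.GF Pool.Agent.Y118.HG Pool.Agent.Y916 Pool.Agent.Y921.DB

variable {k : ℕ} {τ τ' : Type}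

/-- a relation depends only on the functions near `0` -/
lemma SpecQ.congr {κ : IntermediateField ℚ ℂ} {p p' : (Fin k → ℂ) → τ → ℂ} {r : ℝ} {δ : ℕ} {s : Fin k → ℂ}
    (hp : ∀ z : Fin k → ℂ, (∀ l, ‖z l‖ < r) → p z = p' z) (hs : ∀ l, ‖s l‖ < r) (h : SpecQ κ p' r δ s) :
    SpecQ κ p r δ s := by
  intro P hP hc h0
  rw [hp _ hs] at h0
  obtain ⟨G, h1, h2, h3⟩ := h P hP hc h0
  exact ⟨G, h1, fun z hz' => by rw [hp z hz']; exact h2 z hz', h3⟩

/-- restriction to a part of the functions -/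
theorem SpecQ.rename {κ : IntermediateField ℚ ℂ} {p : (Fin k → ℂ) → τ → ℂ} {p' : (Fin k → ℂ) → τ' → ℂ} {r : ℝ} {δ : ℕ}
    {s : Fin k → ℂ} {g : τ → τ'} (hg : Function.Injective g) (h1 : ∀ z t, p' z (g t) = p z t)
    (h2 : ∀ z t', t' ∉ Set.range g → p' z t' = 0) (h : SpecQ κ p' r δ s) : SpecQ κ p r δ s := by
  classical
  intro P hP hc h0
  obtain ⟨G, hG1, hG2, hG3⟩ := h (MvPolynomial.rename g P) ((MvPolynomial.totalDegree_rename_le g P).trans hP) (by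
    intro e
    by_cases he : ∃ e', Finsupp.mapDomain g e' = e
    · obtain ⟨e', rfl⟩ := he
      rw [MvPolynomial.coeff_rename_mapDomain g hg]
      exact hc e'
    · rw [MvPolynomial.coeff_rename_eq_zero g P e fun u hu => absurd ⟨u, hu⟩ he]
      exact zero_mem _) (by
    rw [MvPolynomial.aeval_rename, ← h0]
    congr 1
    congr 1
    funext t
    exact h1 _ t)
  refine ⟨MvPolynomial.killCompl hg G, (totalDegree_aeval_le' (fun i => ?_) G).trans hG1, fun z hz => ?_, ?_⟩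
  · split_ifs
    · exact (MvPolynomial.totalDegree_X _).le
    · simp
  · have h3 := MvPolynomial.map_aeval (R := MvPolynomial (Fin k) Qb)
      (g := fun i => if hi : i ∈ Set.range g then (MvPolynomial.X ((Equiv.ofInjective g hg).symm ⟨i, hi⟩) :
        MvPolynomial τ (MvPolynomial (Fin k) Qb)) else 0)
      (φ := MvPolynomial.eval₂Hom (MvPolynomial.aeval z : MvPolynomial (Fin k) Qb →ₐ[Qb] ℂ).toRingHom (p z)) (p := G)
    have h4 : MvPolynomial.eval₂ (MvPolynomial.aeval z : MvPolynomial (Fin k) Qb →ₐ[Qb] ℂ).toRingHom (p z)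
        (MvPolynomial.killCompl hg G) =
        MvPolynomial.eval₂Hom (MvPolynomial.aeval z : MvPolynomial (Fin k) Qb →ₐ[Qb] ℂ).toRingHom (p z)
          (MvPolynomial.killCompl hg G) := rfl
    rw [h4]
    unfold MvPolynomial.killCompl
    rw [h3, ← hG2 z hz]
    have h5 : (MvPolynomial.eval₂Hom (MvPolynomial.aeval z : MvPolynomial (Fin k) Qb →ₐ[Qb] ℂ).toRingHom (p z)).comp
        (algebraMap (MvPolynomial (Fin k) Qb) (MvPolynomial τ (MvPolynomial (Fin k) Qb))) =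
        (MvPolynomial.aeval z : MvPolynomial (Fin k) Qb →ₐ[Qb] ℂ).toRingHom := by
      refine RingHom.ext fun a => ?_
      rw [RingHom.comp_apply, MvPolynomial.algebraMap_eq, MvPolynomial.coe_eval₂Hom, MvPolynomial.eval₂_C]
    rw [h5, MvPolynomial.coe_eval₂Hom]
    congr 1
    funext t'
    by_cases ht' : t' ∈ Set.range g
    · rw [dif_pos ht', MvPolynomial.coe_eval₂Hom, MvPolynomial.eval₂_X]
      obtain ⟨t, rfl⟩ := ht'
      rw [h1]
      congr 1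
      exact (Equiv.symm_apply_eq _).2 (Subtype.ext rfl)
    · rw [dif_neg ht', map_zero, h2 z t' ht']
  · unfold MvPolynomial.killCompl
    have h3 := MvPolynomial.map_aeval (R := MvPolynomial (Fin k) Qb)
      (g := fun i => if hi : i ∈ Set.range g then (MvPolynomial.X ((Equiv.ofInjective g hg).symm ⟨i, hi⟩) :
        MvPolynomial τ (MvPolynomial (Fin k) Qb)) else 0)
      (φ := MvPolynomial.map (σ := τ) (MvPolynomial.aeval s : MvPolynomial (Fin k) Qb →ₐ[Qb] ℂ).toRingHom) (p := G)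
    rw [h3]
    have h4 : P = MvPolynomial.killCompl hg
        (MvPolynomial.map (MvPolynomial.aeval s : MvPolynomial (Fin k) Qb →ₐ[Qb] ℂ).toRingHom G) := by
      rw [hG3, MvPolynomial.killCompl_rename_app]
    conv_rhs => rw [h4]
    unfold MvPolynomial.killCompl
    rw [MvPolynomial.aeval_def, MvPolynomial.eval₂_map]
    rw [MvPolynomial.coe_eval₂Hom]
    congr 1
    · refine RingHom.ext fun a => ?_
      simp
    · funext t'
      split_ifs <;> simp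

variable {n : ℕ} {ι : Type} [Fintype ι] {L : Type} [Field L] [NumberField L] [Algebra L ℂ]

open Classical in
/-- **Counting**, over number fields -/
theorem specQL_count {f : Polynomial L} {A : Fin n → Fin n → Polynomial L} {Z W : Fin n → Fin n → L⟦X⟧}
    (h : DatL f A Z W) (lam : Fin k → ι → Option (Fin n × Fin n) → ℂ) {r₀ : ℝ} (hr₀ : 0 < r₀) :
    ∃ r : ℝ, 0 < r ∧ r ≤ r₀ ∧ ∀ (δ D : ℕ) (m : Fin k → ℕ) (η : ℝ), 0 < η → η ≤ 1 → ∃ c C : ℝ, 0 < c ∧ 0 ≤ C ∧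
      ∀ K₀ : IntermediateField ℚ ℂ, FiniteDimensional ℚ K₀ → finrank ℚ K₀ ≤ D → ∀ T : ℕ, 1 ≤ T →
      ∀ a : Fin k → ℕ, (∀ i, 1 ≤ a i ∧ (a i : ℝ) ≤ (T : ℝ) ^ (1 - η)) →
      (((Fintype.piFinset fun l : Fin k => Sl.NF (m l) T).filter fun β =>
        ¬ ((∀ l, ‖(a l : ℂ) / β l‖ < r) ∧
          SpecQ (K₀ ⊔ IntermediateField.adjoin ℚ (Set.range fun l => (a l : ℂ) / β l)) (ptL lam Z) r δ
            (fun l => (a l : ℂ) / β l))).card : ℝ) ≤ C * (T : ℝ) ^ (((∑ l, Sl.Mm (m l) : ℕ) : ℝ) - c) := by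
  obtain ⟨n', F, B, Z', W', lam', r₁, hD, hr₁, heq⟩ := ptL_eq h lam
  obtain ⟨r, hr, hrr, hall⟩ := specQ_count hD lam' (lt_min hr₀ hr₁)
  refine ⟨r, hr, hrr.trans (min_le_left _ _), fun δ D m η hη hη1 => ?_⟩
  obtain ⟨c, C, hc, hC0, hC⟩ := hall δ D m η hη hη1
  refine ⟨c, C, hc, hC0, fun K₀ hK₀ hKD T hT a ha => le_trans ?_ (hC K₀ hK₀ hKD T hT a ha)⟩
  refine Nat.cast_le.2 (Finset.card_le_card fun β hβ => ?_)
  obtain ⟨hβ1, hβ2⟩ := Finset.mem_filter.1 hβ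
  refine Finset.mem_filter.2 ⟨hβ1, fun hh => hβ2 ⟨hh.1, ?_⟩⟩
  exact SpecQ.congr (fun z hz => heq z fun l => (hz l).trans_le (hrr.trans (min_le_right _ _))) hh.1 hh.2

section rep

variable {nn : Fin k → ℕ}

/-- functions which are represented by fundamental matrices of G-functions -/
structure Rep (P : (Fin k → ℂ) → ι → ℂ) (ρ : ℝ) (Z : ∀ l, Fin (nn l) → Fin (nn l) → L⟦X⟧) where
  co : ι → Fin k
  c₀ : ι → ℂ
  c : ∀ i, Fin (nn (co i)) → Fin (nn (co i)) → ℂ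
  eq : ∀ z : Fin k → ℂ, (∀ l, ‖z l‖ < ρ) → ∀ i, P z i = c₀ i + ∑ a, ∑ b, c i a b * VL (Z (co i) a b) (z (co i))

open Classical in
/-- the coefficients -/
noncomputable def Rep.lam {P : (Fin k → ℂ) → ι → ℂ} {ρ : ℝ} {Z : ∀ l, Fin (nn l) → Fin (nn l) → L⟦X⟧} (R : Rep P ρ Z)
    (l : Fin k) (i : ι) (q : Option (Fin (sz nn) × Fin (sz nn))) : ℂ :=
  if R.co i = l then q.elim (R.c₀ i) fun q => ∑ a, ∑ b,
    if q = ((sx nn).symm ⟨R.co i, a⟩, (sx nn).symm ⟨R.co i, b⟩) then R.c i a b else 0 else 0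

lemma Rep.lam_eq {P : (Fin k → ℂ) → ι → ℂ} {ρ : ℝ} {Z : ∀ l, Fin (nn l) → Fin (nn l) → L⟦X⟧} (R : Rep P ρ Z)
    {z : Fin k → ℂ} (hz : ∀ l, ‖z l‖ < ρ) (i : ι) : ptL R.lam (blk Z) z (R.co i, i) = P z i := by
  classical
  rw [R.eq z hz i]
  unfold ptL
  rw [Fintype.sum_option]
  unfold Rep.lam
  simp only [if_true, Option.elim_none, Option.elim_some, mul_one]
  congr 1
  simp only [Finset.sum_mul]
  rw [Finset.sum_comm]
  refine Finset.sum_congr rfl fun a _ => ?_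
  rw [Finset.sum_comm]
  refine Finset.sum_congr rfl fun b _ => ?_
  rw [Finset.sum_eq_single ((sx nn).symm ⟨R.co i, a⟩, (sx nn).symm ⟨R.co i, b⟩)]
  · rw [if_pos rfl]
    simp only [blk_same]
  · intro q _ hq
    rw [if_neg hq, zero_mul]
  · intro hh
    exact absurd (Finset.mem_univ _) hh

lemma Rep.lam_ne {P : (Fin k → ℂ) → ι → ℂ} {ρ : ℝ} {Z : ∀ l, Fin (nn l) → Fin (nn l) → L⟦X⟧} (R : Rep P ρ Z)
    (z : Fin k → ℂ) {t' : Fin k × ι} (ht' : t' ∉ Set.range fun i => (R.co i, i)) : ptL R.lam (blk Z) z t' = 0 := by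
  classical
  unfold ptL
  refine Finset.sum_eq_zero fun q _ => ?_
  unfold Rep.lam
  rw [if_neg (fun hh => ht' ⟨t'.2, Prod.ext hh rfl⟩), zero_mul]

lemma Rep.specQ {P : (Fin k → ℂ) → ι → ℂ} {ρ : ℝ} {Z : ∀ l, Fin (nn l) → Fin (nn l) → L⟦X⟧} (R : Rep P ρ Z)
    {r : ℝ} (hr : r ≤ ρ) {κ : IntermediateField ℚ ℂ} {δ : ℕ} {s : Fin k → ℂ} (hs : ∀ l, ‖s l‖ < r)
    (h : SpecQ κ (ptL R.lam (blk Z)) r δ s) : SpecQ κ P r δ s := by
  have h1 : SpecQ κ (fun z i => ptL R.lam (blk Z) z (R.co i, i)) r δ s :=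
    SpecQ.rename (g := fun i : ι => (R.co i, i)) (fun v v' hv => (Prod.ext_iff.1 hv).2) (fun z t => rfl)
      (fun z t' ht' => R.lam_ne z ht') h
  exact SpecQ.congr (fun z hz => funext fun i => (R.lam_eq (fun l => (hz l).trans_le hr) i).symm) hs h1

open Classical in
/-- **Counting** -/
theorem Rep.count {P : (Fin k → ℂ) → ι → ℂ} {ρ : ℝ} (hρ : 0 < ρ) {f : Fin k → Polynomial L}
    {A : ∀ l, Fin (nn l) → Fin (nn l) → Polynomial L} {Z W : ∀ l, Fin (nn l) → Fin (nn l) → L⟦X⟧} (R : Rep P ρ Z)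
    (h : ∀ l, DatL (f l) (A l) (Z l) (W l)) :
    ∃ r : ℝ, 0 < r ∧ r ≤ ρ ∧ ∀ (δ D : ℕ) (m : Fin k → ℕ) (η : ℝ), 0 < η → η ≤ 1 → ∃ c C : ℝ, 0 < c ∧ 0 ≤ C ∧
      ∀ K₀ : IntermediateField ℚ ℂ, FiniteDimensional ℚ K₀ → finrank ℚ K₀ ≤ D → ∀ T : ℕ, 1 ≤ T →
      ∀ a : Fin k → ℕ, (∀ i, 1 ≤ a i ∧ (a i : ℝ) ≤ (T : ℝ) ^ (1 - η)) →
      (((Fintype.piFinset fun l : Fin k => Sl.NF (m l) T).filter fun β =>
        ¬ ((∀ l, ‖(a l : ℂ) / β l‖ < r) ∧
          SpecQ (K₀ ⊔ IntermediateField.adjoin ℚ (Set.range fun l => (a l : ℂ) / β l)) P r δ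
            (fun l => (a l : ℂ) / β l))).card : ℝ) ≤ C * (T : ℝ) ^ (((∑ l, Sl.Mm (m l) : ℕ) : ℝ) - c) := by
  obtain ⟨A', hA'⟩ := DatL.block h
  obtain ⟨r, hr, hrr, hall⟩ := specQL_count hA' R.lam hρ
  refine ⟨r, hr, hrr, fun δ D m η hη hη1 => ?_⟩
  obtain ⟨c, C, hc, hC0, hC⟩ := hall δ D m η hη hη1
  refine ⟨c, C, hc, hC0, fun K₀ hK₀ hKD T hT a ha => le_trans ?_ (hC K₀ hK₀ hKD T hT a ha)⟩
  refine Nat.cast_le.2 (Finset.card_le_card fun β hβ => ?_)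
  obtain ⟨hβ1, hβ2⟩ := Finset.mem_filter.1 hβ
  refine Finset.mem_filter.2 ⟨hβ1, fun hh => hβ2 ⟨hh.1, R.specQ hrr hh.1 hh.2⟩⟩

end rep

end Pool.Agent.NH25.DG
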