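import Pool.Agent.NH25.DG.Spec
import Mathlib.Algebra.MvPolynomial.SchwartzZippel

/-!
# The degree statement at almost all algebraic points of bounded degree
-/

set_option autoImplicit false

open PowerSeries Module

namespace Pool.Agent.NH25.DG

open Pool.Agent.Y113 Pool.Agent.Y113.GG Pool.Agent.Y37.GF Pool.Agent.Y118.HG Pool.Agent.Y916 Pool.Agent.Y921.DB

section zeros

open Classical in
/-- zeros of a polynomial at the points `a / β` -/
lemma zeros_mul {k : ℕ} {p : MvPolynomial (Fin k) ℂ} (hp : p ≠ 0) (S : Fin k → Finset ℂ) (hS : ∀ l, (S l).Nonempty)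
    (a : Fin k → ℕ) (ha : ∀ i, 1 ≤ a i) :
    ((((Fintype.piFinset S).filter fun β => MvPolynomial.eval (fun l => (a l : ℂ) / β l) p = 0).card : ℕ) : ℝ) ≤
      (∏ i, ((S i).card : ℝ)) * ∑ i, (p.degreeOf i : ℝ) / ((S i).card : ℝ) := by
  set φ : Fin k → ℂ → ℂ := fun l β => (a l : ℂ) / β with hφ
  have ha0 : ∀ l, (a l : ℂ) ≠ 0 := fun l => by
    have := ha l
    exact_mod_cast (by omega : a l ≠ 0)
  have hinj : ∀ l, Function.Injective (φ l) := by
    intro l x y hxy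
    simp only [hφ, div_eq_mul_inv] at hxy
    exact inv_injective (mul_left_cancel₀ (ha0 l) hxy)
  have hcard : ∀ l, ((S l).image (φ l)).card = (S l).card := fun l => Finset.card_image_of_injective _ (hinj l)
  have h1 := MvPolynomial.schwartz_zippel_sum_degreeOf hp (fun l => (S l).image (φ l))
  simp only [hcard] at h1
  have hS0 : ∀ l, (0 : ℚ≥0) < ((S l).card : ℚ≥0) := fun l => by exact_mod_cast (hS l).card_pos
  rw [div_le_iff₀ (Finset.prod_pos fun i _ => hS0 i)] at h1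
  have h2 : ((Fintype.piFinset S).filter fun β => MvPolynomial.eval (fun l => (a l : ℂ) / β l) p = 0).card ≤
      ((Fintype.piFinset fun l : Fin k => (S l).image (φ l)).filter fun f => MvPolynomial.eval f p = 0).card := by
    refine Finset.card_le_card_of_injOn (fun β l => φ l (β l)) ?_ ?_
    · intro β hβ
      obtain ⟨hβ1, hβ2⟩ := Finset.mem_filter.1 hβ
      rw [Finset.mem_coe, Finset.mem_filter]
      refine ⟨?_, hβ2⟩
      rw [Fintype.mem_piFinset] at hβ1 ⊢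
      exact fun l => Finset.mem_image_of_mem _ (hβ1 l)
    · intro β _ β' _ h
      funext l
      exact hinj l (congrFun h l)
  have h3 : ((((Fintype.piFinset fun l : Fin k => (S l).image (φ l)).filter fun f => MvPolynomial.eval f p = 0).card : ℕ) :
      ℝ) ≤ (∑ i, (p.degreeOf i : ℝ) / ((S i).card : ℝ)) * ∏ i, ((S i).card : ℝ) := by
    have h4 : ((((Fintype.piFinset fun l : Fin k => (S l).image (φ l)).filter fun f =>
        MvPolynomial.eval f p = 0).card : ℕ) : ℚ≥0) ≤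
        (∑ i, (p.degreeOf i : ℚ≥0) / ((S i).card : ℚ≥0)) * ∏ i, ((S i).card : ℚ≥0) := by
      convert h1
    have h5 := (NNRat.cast_le (K := ℝ)).2 h4
    push_cast at h5
    exact h5
  have h6 : ((((Fintype.piFinset S).filter fun β => MvPolynomial.eval (fun l => (a l : ℂ) / β l) p = 0).card : ℕ) : ℝ) ≤
    ((((Fintype.piFinset fun l : Fin k => (S l).image (φ l)).filter fun f => MvPolynomial.eval f p = 0).card : ℕ) :
      ℝ) := by exact_mod_cast h2
  rw [mul_comm]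
  exact h6.trans h3

lemma Mm_pos {m : ℕ} (hm : 1 ≤ m) : 1 ≤ Sl.Mm m := by
  unfold Sl.Mm
  refine le_trans ?_ (Finset.single_le_sum (f := fun i : Fin m => (m - (i : ℕ))) (fun _ _ => Nat.zero_le _)
    (Finset.mem_univ (⟨0, hm⟩ : Fin m)))
  simpa using hm

lemma NF_zero (T : ℕ) : Sl.NF 0 T = ∅ := by
  rw [Finset.eq_empty_iff_forall_notMem]
  intro ξ hξ
  obtain ⟨f, h1, h2, h3, -⟩ := Sl.mem_NF.1 hξ
  rw [h1.natDegree_eq_zero.1 h2] at h3
  simp at h3

lemma aux_div (X P d : ℝ) (hX : X ≠ 0) : X * P * (d / X) = d * P := by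
  field_simp

open Classical in
/-- zeros of a polynomial at the points `a / β`, `β` in `NF m T` -/
lemma zeros_NF {k : ℕ} {p : MvPolynomial (Fin k) ℂ} (hp : p ≠ 0) (m : Fin k → ℕ) : ∃ C : ℝ, 0 ≤ C ∧ ∀ T : ℕ, 1 ≤ T →
    ∀ a : Fin k → ℕ, (∀ i, 1 ≤ a i) →
    (((Fintype.piFinset fun l : Fin k => Sl.NF (m l) T).filter fun β =>
      MvPolynomial.eval (fun l => (a l : ℂ) / β l) p = 0).card : ℝ) ≤ C * (T : ℝ) ^ (((∑ l, Sl.Mm (m l) : ℕ) : ℝ) - 1) := by
  set c₀ : Fin k → ℝ := fun l => ((3 * 2 ^ m l) ^ m l * m l : ℝ) with hc₀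
  have hc₀0 : ∀ l, 0 ≤ c₀ l := fun l => by positivity
  refine ⟨∑ i, (p.degreeOf i : ℝ) * ∏ l ∈ Finset.univ.erase i, c₀ l, Finset.sum_nonneg fun i _ =>
    mul_nonneg (Nat.cast_nonneg _) (Finset.prod_nonneg fun l _ => hc₀0 l), fun T hT a ha => ?_⟩
  have hT1 : (1 : ℝ) ≤ T := by exact_mod_cast hT
  have hT0 : (0 : ℝ) < T := by linarith
  by_cases hne : ∀ l, (Sl.NF (m l) T).Nonempty
  swap
  · push Not at hne
    obtain ⟨l, hl⟩ := hne
    have h0 : (Fintype.piFinset fun l : Fin k => Sl.NF (m l) T) = ∅ := by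
      rw [Finset.eq_empty_iff_forall_notMem]
      intro β hβ
      rw [Fintype.mem_piFinset] at hβ
      have := hβ l
      rw [hl] at this
      exact absurd this (Finset.notMem_empty _)
    rw [h0]
    simp only [Finset.filter_empty, Finset.card_empty, Nat.cast_zero]
    exact mul_nonneg (Finset.sum_nonneg fun i _ => mul_nonneg (Nat.cast_nonneg _)
      (Finset.prod_nonneg fun l _ => hc₀0 l)) (by positivity)
  have hm : ∀ l, 1 ≤ m l := by
    intro l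
    by_contra h
    have h1 : m l = 0 := by omega
    have h2 := hne l
    rw [h1, NF_zero] at h2
    exact Finset.not_nonempty_empty h2
  refine (zeros_mul hp (fun l => Sl.NF (m l) T) hne a ha).trans ?_
  rw [Finset.mul_sum, Finset.sum_mul]
  refine Finset.sum_le_sum fun i _ => ?_
  have hi0 : (0 : ℝ) < ((Sl.NF (m i) T).card : ℝ) := by exact_mod_cast (hne i).card_pos
  have h1 : (∏ l, ((Sl.NF (m l) T).card : ℝ)) * ((p.degreeOf i : ℝ) / ((Sl.NF (m i) T).card : ℝ)) =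
      (p.degreeOf i : ℝ) * ∏ l ∈ Finset.univ.erase i, ((Sl.NF (m l) T).card : ℝ) := by
    rw [← Finset.mul_prod_erase Finset.univ _ (Finset.mem_univ i)]
    exact aux_div _ _ _ hi0.ne'
  rw [h1, mul_assoc]
  refine mul_le_mul_of_nonneg_left ?_ (Nat.cast_nonneg _)
  have h2 : ∏ l ∈ Finset.univ.erase i, ((Sl.NF (m l) T).card : ℝ) ≤
      ∏ l ∈ Finset.univ.erase i, (c₀ l * (T : ℝ) ^ Sl.Mm (m l)) :=
    Finset.prod_le_prod (fun _ _ => Nat.cast_nonneg _) fun l _ => Sl.card_NF (m l) T hT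
  refine h2.trans ?_
  rw [Finset.prod_mul_distrib, Finset.prod_pow_eq_pow_sum]
  refine mul_le_mul_of_nonneg_left ?_ (Finset.prod_nonneg fun l _ => hc₀0 l)
  rw [← Real.rpow_natCast]
  refine Real.rpow_le_rpow_of_exponent_le hT1 ?_
  have h3 := Finset.add_sum_erase Finset.univ (fun l => Sl.Mm (m l)) (Finset.mem_univ i)
  have h4 := Mm_pos (hm i)
  have h5 : ((∑ l ∈ Finset.univ.erase i, Sl.Mm (m l) : ℕ) : ℝ) + 1 ≤ ((∑ l, Sl.Mm (m l) : ℕ) : ℝ) := by
    rw [← h3]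
    have : (∑ l ∈ Finset.univ.erase i, Sl.Mm (m l)) + 1 ≤ Sl.Mm (m i) + ∑ l ∈ Finset.univ.erase i, Sl.Mm (m l) := by
      omega
    exact_mod_cast this
  linarith

open Classical in
/-- points which are not large -/
lemma small_NF (m : ℕ) {B : ℝ} (hB : 1 ≤ B) {η : ℝ} : ∃ C : ℝ, 0 ≤ C ∧ ∀ T : ℕ, 1 ≤ T →
    ∀ a : ℕ, (1 ≤ a ∧ (a : ℝ) ≤ (T : ℝ) ^ (1 - η)) →
    (((Sl.NF m T).filter fun ξ => ‖ξ‖ ≤ B * a).card : ℝ) ≤ C * (T : ℝ) ^ ((Sl.Mm m : ℝ) - η / 2) := by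
  set C₀ : ℝ := (3 * 2 ^ m) ^ m * m with hC₀
  have hC₀0 : 0 ≤ C₀ := by positivity
  refine ⟨2 * C₀ + C₀ * B, by positivity, fun T hT a ⟨ha, haT⟩ => ?_⟩
  have hT1 : (1 : ℝ) ≤ T := by exact_mod_cast hT
  have hT0 : (0 : ℝ) < T := by linarith
  have haR : (1 : ℝ) ≤ a := by exact_mod_cast ha
  rcases le_total B ((T : ℝ) ^ (η / 2)) with h | h
  · have h1 : B * a ≤ (T : ℝ) ^ (1 - η / 2) := by
      have h2 : (T : ℝ) ^ (1 - η / 2) = (T : ℝ) ^ (η / 2) * (T : ℝ) ^ (1 - η) := by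
        rw [← Real.rpow_add hT0]
        congr 1
        ring
      rw [h2]
      exact mul_le_mul h haT (by linarith) (by positivity)
    refine (AP.small_le m T hT (κ := η / 2) (b := B * a) (by nlinarith) h1).trans ?_
    refine mul_le_mul_of_nonneg_right ?_ (by positivity)
    have : 0 ≤ C₀ * B := by positivity
    linarith
  · have h1 : (((Sl.NF m T).filter fun ξ => ‖ξ‖ ≤ B * a).card : ℝ) ≤ C₀ * (T : ℝ) ^ Sl.Mm m :=
      le_trans (by exact_mod_cast Finset.card_filter_le _ _) (Sl.card_NF m T hT)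
    refine h1.trans ?_
    have h2 : (T : ℝ) ^ Sl.Mm m = (T : ℝ) ^ (η / 2) * (T : ℝ) ^ ((Sl.Mm m : ℝ) - η / 2) := by
      rw [← Real.rpow_add hT0, ← Real.rpow_natCast]
      congr 1
      ring
    rw [h2, ← mul_assoc]
    refine mul_le_mul_of_nonneg_right ?_ (by positivity)
    have h3 : C₀ * (T : ℝ) ^ (η / 2) ≤ C₀ * B := mul_le_mul_of_nonneg_left h hC₀0
    linarith

open Classical in
/-- tuples with a coordinate which is not large -/
lemma small_tup (k : ℕ) {B : ℝ} (hB : 1 ≤ B) {η : ℝ} : ∀ m : Fin k → ℕ, ∃ C : ℝ, 0 ≤ C ∧ ∀ T : ℕ, 1 ≤ T →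
    ∀ a : Fin k → ℕ, (∀ i, 1 ≤ a i ∧ (a i : ℝ) ≤ (T : ℝ) ^ (1 - η)) →
    (((Fintype.piFinset fun l : Fin k => Sl.NF (m l) T).filter fun β => ∃ l, ‖β l‖ ≤ B * a l).card : ℝ) ≤
      C * (T : ℝ) ^ (((∑ l, Sl.Mm (m l) : ℕ) : ℝ) - η / 2) := by
  induction k with
  | zero =>
    intro m
    refine ⟨0, le_rfl, fun T hT a _ => ?_⟩
    rw [Finset.filter_false_of_mem, Finset.card_empty]
    · simp
    · rintro β - ⟨l, -⟩
      exact l.elim0
  | succ k ih =>
    intro m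
    obtain ⟨C, hC, h⟩ := small_NF (m 0) hB (η := η)
    set C₀ : ℝ := (3 * 2 ^ m 0) ^ m 0 * m 0 with hC₀
    have hC₀0 : 0 ≤ C₀ := by positivity
    set Cp : ℝ := ∏ l : Fin k, ((3 * 2 ^ m l.succ) ^ m l.succ * m l.succ : ℝ) with hCp
    have hCp0 : 0 ≤ Cp := by positivity
    obtain ⟨C₁, hC₁, h₁⟩ := ih fun l => m l.succ
    refine ⟨C * Cp + C₀ * C₁, by positivity, fun T hT a ha => ?_⟩
    have hT1 : (1 : ℝ) ≤ T := by exact_mod_cast hT
    have hT0 : (0 : ℝ) < T := by linarith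
    have hpts := Sl.card_NF (m 0) T hT
    have hsub : ((Fintype.piFinset fun l : Fin (k + 1) => Sl.NF (m l) T).filter fun β => ∃ l, ‖β l‖ ≤ B * a l) ⊆
        ((((Sl.NF (m 0) T).filter fun ξ => ‖ξ‖ ≤ B * a 0) ×ˢ (Fintype.piFinset fun l : Fin k => Sl.NF (m l.succ) T)).image
          fun p => (Fin.cons p.1 p.2 : Fin (k + 1) → ℂ)) ∪
        (((Sl.NF (m 0) T) ×ˢ ((Fintype.piFinset fun l : Fin k => Sl.NF (m l.succ) T).filter
          fun β => ∃ l, ‖β l‖ ≤ B * a l.succ)).image fun p => (Fin.cons p.1 p.2 : Fin (k + 1) → ℂ)) := by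
      intro t ht
      obtain ⟨ht1, l, hl⟩ := Finset.mem_filter.1 ht
      rw [Fintype.mem_piFinset] at ht1
      have htail : (fun i => t i.succ) ∈ Fintype.piFinset fun l : Fin k => Sl.NF (m l.succ) T := by
        rw [Fintype.mem_piFinset]
        exact fun i => ht1 i.succ
      have hcons : (Fin.cons (t 0) (fun i => t i.succ) : Fin (k + 1) → ℂ) = t := by
        funext i
        refine Fin.cases ?_ (fun i => ?_) i <;> simp
      rw [Finset.mem_union]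
      rcases Fin.eq_zero_or_eq_succ l with rfl | ⟨l', rfl⟩
      · exact Or.inl (Finset.mem_image.2 ⟨(t 0, fun i => t i.succ), Finset.mem_product.2
          ⟨Finset.mem_filter.2 ⟨ht1 0, hl⟩, htail⟩, hcons⟩)
      · exact Or.inr (Finset.mem_image.2 ⟨(t 0, fun i => t i.succ), Finset.mem_product.2
          ⟨ht1 0, Finset.mem_filter.2 ⟨htail, l', hl⟩⟩, hcons⟩)
    have h3 : (((Fintype.piFinset fun l : Fin (k + 1) => Sl.NF (m l) T).filter fun β => ∃ l, ‖β l‖ ≤ B * a l).card : ℝ) ≤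
        (((((Sl.NF (m 0) T).filter fun ξ => ‖ξ‖ ≤ B * a 0) ×ˢ
          (Fintype.piFinset fun l : Fin k => Sl.NF (m l.succ) T)).card : ℕ) : ℝ) +
        ((((Sl.NF (m 0) T) ×ˢ ((Fintype.piFinset fun l : Fin k => Sl.NF (m l.succ) T).filter
          fun β => ∃ l, ‖β l‖ ≤ B * a l.succ)).card : ℕ) : ℝ) := by
      exact_mod_cast (Finset.card_le_card hsub).trans ((Finset.card_union_le _ _).trans
        (add_le_add Finset.card_image_le Finset.card_image_le))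
    refine h3.trans ?_
    rw [Finset.card_product, Finset.card_product, Fintype.card_piFinset]
    have e0 : (((∑ l, Sl.Mm (m l) : ℕ) : ℝ)) = (Sl.Mm (m 0) : ℝ) + ((∑ l : Fin k, Sl.Mm (m l.succ) : ℕ) : ℝ) := by
      rw [Fin.sum_univ_succ]
      push_cast
      ring
    have e1 : (C * (T : ℝ) ^ ((Sl.Mm (m 0) : ℝ) - η / 2)) * (Cp * (T : ℝ) ^ (∑ l : Fin k, Sl.Mm (m l.succ))) =
        C * Cp * (T : ℝ) ^ (((∑ l, Sl.Mm (m l) : ℕ) : ℝ) - η / 2) := by
      have : ((∑ l, Sl.Mm (m l) : ℕ) : ℝ) - η / 2 =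
          ((Sl.Mm (m 0) : ℝ) - η / 2) + ((∑ l : Fin k, Sl.Mm (m l.succ) : ℕ) : ℝ) := by
        rw [e0]
        ring
      rw [this, Real.rpow_add hT0, Real.rpow_natCast]
      ring
    have e2 : (C₀ * (T : ℝ) ^ Sl.Mm (m 0)) * (C₁ * (T : ℝ) ^ (((∑ l : Fin k, Sl.Mm (m l.succ) : ℕ) : ℝ) - η / 2)) =
        C₀ * C₁ * (T : ℝ) ^ (((∑ l, Sl.Mm (m l) : ℕ) : ℝ) - η / 2) := by
      have : ((∑ l, Sl.Mm (m l) : ℕ) : ℝ) - η / 2 =
          (Sl.Mm (m 0) : ℝ) + (((∑ l : Fin k, Sl.Mm (m l.succ) : ℕ) : ℝ) - η / 2) := by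
        rw [e0]
        ring
      rw [this, Real.rpow_add hT0, Real.rpow_natCast]
      ring
    rw [add_mul (C * Cp), ← e1, ← e2, Nat.cast_mul, Nat.cast_mul]
    refine add_le_add ?_ ?_
    · refine mul_le_mul (h T hT (a 0) (ha 0)) ?_ (Nat.cast_nonneg _) (mul_nonneg hC (Real.rpow_nonneg hT0.le _))
      rw [Nat.cast_prod, ← Finset.prod_pow_eq_pow_sum, hCp, ← Finset.prod_mul_distrib]
      exact Finset.prod_le_prod (fun _ _ => Nat.cast_nonneg _) fun l _ => Sl.card_NF (m l.succ) T hT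
    · exact mul_le_mul hpts (h₁ T hT (fun i => a i.succ) fun i => ha i.succ) (Nat.cast_nonneg _)
        (mul_nonneg hC₀0 (pow_nonneg hT0.le _))

end zeros

lemma Qs_div (x : ℂ) {a : ℕ} (ha : 1 ≤ a) : Qs ((a : ℂ) / x) = Qs x := by
  have ha0 : (a : ℂ) ≠ 0 := by exact_mod_cast (by omega : a ≠ 0)
  unfold Qs
  congr 1
  congr 1
  refine le_antisymm ?_ ?_
  · rw [IntermediateField.adjoin_simple_le_iff]
    exact div_mem (natCast_mem _ a) (IntermediateField.mem_adjoin_simple_self ℚ x)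
  · rw [IntermediateField.adjoin_simple_le_iff]
    have h1 : x = (a : ℂ) / ((a : ℂ) / x) := by
      rcases eq_or_ne x 0 with rfl | hx
      · simp
      · field_simp
    have h2 := div_mem (natCast_mem (IntermediateField.adjoin ℚ {(a : ℂ) / x}) a)
      (IntermediateField.mem_adjoin_simple_self ℚ ((a : ℂ) / x))
    rwa [← h1] at h2

variable {n k : ℕ} {ι : Type} [Fintype ι]

open Classical in
/-- **Counting.** -/
theorem specQ_count {f : Polynomial ℚ} {A : Fin n → Fin n → Polynomial ℚ} {Z W : Fin n → Fin n → ℚ⟦X⟧}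
    (h : Dat f A Z W) (lam : Fin k → ι → Option (Fin n × Fin n) → ℂ) {r₀ : ℝ} (hr₀ : 0 < r₀) :
    ∃ r : ℝ, 0 < r ∧ r ≤ r₀ ∧ ∀ (δ D : ℕ) (m : Fin k → ℕ) (η : ℝ), 0 < η → η ≤ 1 → ∃ c C : ℝ, 0 < c ∧ 0 ≤ C ∧
      ∀ K₀ : IntermediateField ℚ ℂ, FiniteDimensional ℚ K₀ → finrank ℚ K₀ ≤ D → ∀ T : ℕ, 1 ≤ T →
      ∀ a : Fin k → ℕ, (∀ i, 1 ≤ a i ∧ (a i : ℝ) ≤ (T : ℝ) ^ (1 - η)) →
      (((Fintype.piFinset fun l : Fin k => Sl.NF (m l) T).filter fun β =>
        ¬ ((∀ l, ‖(a l : ℂ) / β l‖ < r) ∧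
          SpecQ (K₀ ⊔ IntermediateField.adjoin ℚ (Set.range fun l => (a l : ℂ) / β l)) (pt lam Z) r δ
            (fun l => (a l : ℂ) / β l))).card : ℝ) ≤ C * (T : ℝ) ^ (((∑ l, Sl.Mm (m l) : ℕ) : ℝ) - c) := by
  obtain ⟨C', hC', hCZ', -⟩ := h.bound
  obtain ⟨B, hCC, hCr⟩ : ∃ B : ℝ, C' ≤ B ∧ 1 / r₀ ≤ B := ⟨max C' (1 / r₀), le_max_left _ _, le_max_right _ _⟩
  have hB : 1 ≤ B := hC'.trans hCC
  have hB0 : 0 < B := by linarith
  have hBZ : ∀ i j m, |((coeff m (Z i j) : ℚ) : ℝ)| ≤ B ^ (m + 1) := fun i j m =>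
    (hCZ' i j m).trans (pow_le_pow_left₀ (by linarith) hCC _)
  refine ⟨1 / B, by positivity, by rw [div_le_iff₀ hB0]; rw [div_le_iff₀ hr₀] at hCr; linarith, fun δ D m η hη hη1 => ?_⟩
  obtain ⟨b⟩ := exists_bas Z δ
  obtain ⟨D₁, Δ, hΔ, hmain'⟩ := specQ_main b lam hB hBZ
  set Δc : MvPolynomial (Fin k) ℂ := Δ.map (algebraMap Qb ℂ) with hΔc
  have hΔc0 : Δc ≠ 0 := by
    intro h0
    apply hΔ
    exact MvPolynomial.map_injective _ (algebraMap Qb ℂ).injective (h0.trans (map_zero _).symm)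
  obtain ⟨c, hc, C₁, hC₁, h₁⟩ := ndC_count h b hη hη1 k m (D₁ * D)
  obtain ⟨C₂, hC₂, h₂⟩ := zeros_NF hΔc0 m
  obtain ⟨C₃, hC₃, h₃⟩ := small_tup k hB (η := η) m
  set c' := min c (min 1 (η / 2)) with hc'
  have hc'1 : c' ≤ c := min_le_left _ _
  have hc'2 : c' ≤ 1 := (min_le_right _ _).trans (min_le_left _ _)
  have hc'3 : c' ≤ η / 2 := (min_le_right _ _).trans (min_le_right _ _)
  refine ⟨c', C₁ + C₂ + C₃, lt_min hc (lt_min one_pos (by linarith)), by positivity, fun K₀ hK₀ hKD T hT a ha => ?_⟩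
  obtain ⟨V, hV, hVD, hmain⟩ := hmain' K₀ hK₀
  have hVD' : finrank ℚ V ≤ D₁ * D := hVD.trans (Nat.mul_le_mul_left _ hKD)
  have hT1 : (1 : ℝ) ≤ T := by exact_mod_cast hT
  have hsub : ((Fintype.piFinset fun l : Fin k => Sl.NF (m l) T).filter fun β =>
      ¬ ((∀ l, ‖(a l : ℂ) / β l‖ < 1 / B) ∧
        SpecQ (K₀ ⊔ IntermediateField.adjoin ℚ (Set.range fun l => (a l : ℂ) / β l)) (pt lam Z) (1 / B) δ
          (fun l => (a l : ℂ) / β l))) ⊆
      (((Fintype.piFinset fun l : Fin k => Sl.NF (m l) T).filter fun β =>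
        ¬ NdC b (V * Qp β) (fun l => 1 / (β l / a l))) ∪
      ((Fintype.piFinset fun l : Fin k => Sl.NF (m l) T).filter fun β =>
        MvPolynomial.eval (fun l => (a l : ℂ) / β l) Δc = 0)) ∪
      ((Fintype.piFinset fun l : Fin k => Sl.NF (m l) T).filter fun β => ∃ l, ‖β l‖ ≤ B * a l) := by
    intro β hβ
    obtain ⟨hβ1, hβ2⟩ := Finset.mem_filter.1 hβ
    rw [Finset.mem_union, Finset.mem_union, Finset.mem_filter, Finset.mem_filter, Finset.mem_filter]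
    by_contra hcon
    push Not at hcon
    obtain ⟨⟨h4, h5⟩, h6⟩ := hcon
    have h4 := h4 hβ1
    have h5 := h5 hβ1
    have h6 := h6 hβ1
    rw [Fintype.mem_piFinset] at hβ1
    have ha0 : ∀ l, (0 : ℝ) < a l := fun l => by
      have := (ha l).1
      exact_mod_cast (by omega : 0 < a l)
    have hsmall : ∀ l, ‖(a l : ℂ) / β l‖ < 1 / B := by
      intro l
      have h7 := h6 l
      have h8 : 0 < B * a l := mul_pos hB0 (ha0 l)
      rw [norm_div, Complex.norm_natCast, div_lt_div_iff₀ (by linarith) hB0]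
      linarith
    have hint : ∀ l, IsIntegral ℚ ((a l : ℂ) / β l) := by
      intro l
      obtain ⟨g, g1, g2, g3, -⟩ := Sl.mem_NF.1 (hβ1 l)
      have h7 : IsIntegral ℚ (β l) := IsIntegral.tower_top (R := ℤ) ⟨g, g1, g3⟩
      have h8 : IsIntegral ℚ (a l : ℂ) := isIntegral_algebraMap (R := ℚ) (x := (a l : ℚ)) |> fun h => by simpa using h
      rw [div_eq_mul_inv]
      exact h8.mul (h7.inv)
    set s : Fin k → Qb := fun l => ⟨(a l : ℂ) / β l, hint l⟩ with hs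
    have hQ : (Qp fun l => ((s l : Qb) : ℂ)) = Qp β := by
      unfold Qp
      refine Finset.prod_congr rfl fun l _ => ?_
      exact Qs_div _ (ha l).1
    apply hβ2
    refine ⟨hsmall, hmain s hsmall ?_ ?_⟩
    · rw [hQ]
      have h7 : (fun l => 1 / (β l / (a l : ℂ))) = fun l => ((s l : Qb) : ℂ) := by
        funext l
        rw [one_div_div]
      rw [h7] at h4
      exact h4
    · intro h7
      apply h5
      have h8 : MvPolynomial.eval (fun l => ((s l : Qb) : ℂ)) Δc = algebraMap Qb ℂ (MvPolynomial.eval s Δ) := by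
        rw [hΔc, MvPolynomial.eval_map]
        have h9 : (fun l => ((s l : Qb) : ℂ)) = algebraMap Qb ℂ ∘ s := rfl
        rw [h9, ← MvPolynomial.aeval_def, MvPolynomial.aeval_algebraMap_apply]
        rfl
      exact h8.trans (by rw [h7, map_zero])
  have hcard : (((Fintype.piFinset fun l : Fin k => Sl.NF (m l) T).filter fun β =>
      ¬ ((∀ l, ‖(a l : ℂ) / β l‖ < 1 / B) ∧
        SpecQ (K₀ ⊔ IntermediateField.adjoin ℚ (Set.range fun l => (a l : ℂ) / β l)) (pt lam Z) (1 / B) δ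
          (fun l => (a l : ℂ) / β l))).card : ℝ) ≤
      C₁ * (T : ℝ) ^ (((∑ l, Sl.Mm (m l) : ℕ) : ℝ) - c) + C₂ * (T : ℝ) ^ (((∑ l, Sl.Mm (m l) : ℕ) : ℝ) - 1) +
        C₃ * (T : ℝ) ^ (((∑ l, Sl.Mm (m l) : ℕ) : ℝ) - η / 2) := by
    refine le_trans ?_ (add_le_add (add_le_add (h₁ V hV hVD' T hT a ha) (h₂ T hT a fun i => (ha i).1)) (h₃ T hT a ha))
    exact_mod_cast (Finset.card_le_card hsub).trans ((Finset.card_union_le _ _).trans
      (Nat.add_le_add_right (Finset.card_union_le _ _) _))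
  refine hcard.trans ?_
  rw [add_mul, add_mul]
  refine add_le_add (add_le_add (mul_le_mul_of_nonneg_left ?_ hC₁) (mul_le_mul_of_nonneg_left ?_ hC₂))
    (mul_le_mul_of_nonneg_left ?_ hC₃)
  · exact Real.rpow_le_rpow_of_exponent_le hT1 (by linarith)
  · exact Real.rpow_le_rpow_of_exponent_le hT1 (by linarith)
  · exact Real.rpow_le_rpow_of_exponent_le hT1 (by linarith)

end Pool.Agent.NH25.DG
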