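import Pool.Agent.NH25.DG.Elim
import Pool.Agent.Y916.Al.GK

/-!
# Dimensions of spaces of products, and the theorem on the values of G-functions
-/

set_option autoImplicit false

open PowerSeries Module

namespace Pool.Agent.NH25.DG

open Pool.Agent.Y113 Pool.Agent.Y916.Al

section
variable {K : Type} [Field K] [Algebra K ℂ]

lemma mul_leK (V W : Submodule K ℂ) [Module.Finite K V] [Module.Finite K W] :
    Module.Finite K ↥(V * W) ∧ finrank K ↥(V * W) ≤ finrank K V * finrank K W := by
  set bV := Module.finBasis K V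
  set bW := Module.finBasis K W
  have h1 : V * W = Submodule.span K (Set.range fun p : Fin (finrank K V) × Fin (finrank K W) =>
      (bV p.1 : ℂ) * (bW p.2 : ℂ)) := by
    have e1 : V = Submodule.span K (Set.range fun i => (bV i : ℂ)) := by
      have := bV.span_eq
      have h2 := congrArg (Submodule.map V.subtype) this
      rw [Submodule.map_span, Submodule.map_top, Submodule.range_subtype, ← Set.range_comp] at h2
      exact h2.symm
    have e2 : W = Submodule.span K (Set.range fun i => (bW i : ℂ)) := by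
      have := bW.span_eq
      have h2 := congrArg (Submodule.map W.subtype) this
      rw [Submodule.map_span, Submodule.map_top, Submodule.range_subtype, ← Set.range_comp] at h2
      exact h2.symm
    conv_lhs => rw [e1, e2]
    rw [Submodule.span_mul_span]
    congr 1
    ext x
    simp only [Set.mem_mul, Set.mem_range, Prod.exists]
    constructor
    · rintro ⟨_, ⟨i, rfl⟩, _, ⟨j, rfl⟩, rfl⟩
      exact ⟨i, j, rfl⟩
    · rintro ⟨i, j, rfl⟩
      exact ⟨_, ⟨i, rfl⟩, _, ⟨j, rfl⟩, rfl⟩
  rw [h1]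
  refine ⟨Module.Finite.span_of_finite K (Set.finite_range _), ?_⟩
  refine (finrank_range_le_card _).trans ?_
  simp

lemma prod_leK {R : ℕ} (V : Fin R → Submodule K ℂ) (hV : ∀ i, Module.Finite K (V i)) :
    Module.Finite K ↥(∏ i, V i) ∧ finrank K ↥(∏ i, V i) ≤ ∏ i, finrank K (V i) := by
  induction R with
  | zero =>
    rw [Fin.prod_univ_zero, Fin.prod_univ_zero, Submodule.one_eq_span]
    refine ⟨Module.Finite.span_of_finite K (Set.finite_singleton _), ?_⟩
    rw [finrank_span_singleton (one_ne_zero)]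
  | succ R ih =>
    obtain ⟨h1, h2⟩ := ih (fun i => V i.succ) fun i => hV i.succ
    rw [Fin.prod_univ_succ, Fin.prod_univ_succ]
    have := hV 0
    obtain ⟨h3, h4⟩ := mul_leK (V 0) (∏ i : Fin R, V i.succ)
    exact ⟨h3, h4.trans (Nat.mul_le_mul_left _ h2)⟩

lemma prod_memK {R : ℕ} (V : Fin R → Submodule K ℂ) (x : Fin R → ℂ) (h : ∀ i, x i ∈ V i) : ∏ i, x i ∈ ∏ i, V i := by
  induction R with
  | zero =>
    rw [Fin.prod_univ_zero, Fin.prod_univ_zero]
    exact Submodule.one_le.1 le_rfl
  | succ R ih =>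
    rw [Fin.prod_univ_succ, Fin.prod_univ_succ]
    exact Submodule.mul_mem_mul (h 0) (ih _ _ fun i => h i.succ)

lemma rk_lt {ι : Type} [Fintype ι] (y : ι → ℂ) (h : ¬ LinearIndependent K y) :
    finrank K (Submodule.span K (Set.range y)) ≤ Fintype.card ι - 1 := by
  rw [linearIndependent_iff_card_le_finrank_span, not_le] at h
  exact Nat.le_sub_one_of_lt h

/-- dependent blocks -/
theorem blocks_le {R m₀ : ℕ} {κ : Type} [Fintype κ] (y : Fin R → Fin m₀ → κ → ℂ)
    (h : ∀ i, ¬ LinearIndependent K (fun b : Fin m₀ → κ => ∏ l, y i l (b l))) :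
    finrank K (Submodule.span K (Set.range fun e : Fin R → Fin m₀ → κ => ∏ i, ∏ l, y i l (e i l))) ≤
      (Fintype.card κ ^ m₀ - 1) ^ R := by
  set V : Fin R → Submodule K ℂ := fun i => Submodule.span K (Set.range fun b : Fin m₀ → κ => ∏ l, y i l (b l)) with hV
  obtain ⟨h1, h2⟩ := prod_leK V fun i => Module.Finite.span_of_finite K (Set.finite_range _)
  have h3 : Submodule.span K (Set.range fun e : Fin R → Fin m₀ → κ => ∏ i, ∏ l, y i l (e i l)) ≤ ∏ i, V i := by
    rw [Submodule.span_le]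
    rintro _ ⟨e, rfl⟩
    exact prod_memK V _ fun i => Submodule.subset_span ⟨e i, rfl⟩
  refine (Submodule.finrank_mono h3).trans (h2.trans ?_)
  refine (Finset.prod_le_prod' fun i _ => rk_lt _ (h i)).trans (le_of_eq ?_)
  simp

end

/-- the values generate a large space -/
theorem gk_span (m A N q : ℕ) : ∃ E : ℕ, ∀ (C : ℝ) (T : Polynomial ℤ) (ι : Type) [Fintype ι] (y : ι → ℚ⟦X⟧) (i₀ : ι)
    (K : IntermediateField ℚ ℂ) (x : K) (X : ℝ), Fintype.card ι = N → FiniteDimensional ℚ K → finrank ℚ K ≤ m → x ≠ 0 →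
    Pt K x X → GSys q C T y → y i₀ = 1 → LinearIndependent (Polynomial ℚ) y → ‖(x : ℂ)‖ * (2 * C) ^ E ≤ 1 →
    X * ‖(x : ℂ)‖ ^ A ≤ 1 → Polynomial.aeval (x : ℂ) T ≠ 0 →
    N < 2 * A * m * finrank K (Submodule.span K (Set.range fun i => evc (x : ℂ) (y i))) := by
  classical
  obtain ⟨E, hE⟩ := t_GK m A N q
  refine ⟨E, fun C T ι _ y i₀ K x X hι hKf hKd hx hPt hG hi hli hxC hX hT => ?_⟩
  set e : ι ≃ Fin N := Fintype.equivFinOfCardEq hι with he
  set Y : Fin N → ℂ := fun i => evc (x : ℂ) (y (e.symm i)) with hY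
  have hrange : Set.range (fun i => evc (x : ℂ) (y i)) = Set.range Y := by
    have : Y = (fun i => evc (x : ℂ) (y i)) ∘ e.symm := rfl
    rw [this, e.symm.surjective.range_comp]
  rw [hrange]
  set φ : (Fin N → K) →ₗ[K] ℂ := Fintype.linearCombination K Y with hφ
  have hrg : LinearMap.range φ = Submodule.span K (Set.range Y) := Fintype.range_linearCombination K Y
  rw [← hrg]
  have hsum := LinearMap.finrank_range_add_finrank_ker φ
  rw [Module.finrank_fintype_fun_eq_card, Fintype.card_fin] at hsum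
  by_contra hcon
  rw [not_lt] at hcon
  set b := Module.finBasis K (LinearMap.ker φ) with hb
  refine hE C T (fun i => y (e.symm i)) (e i₀) K x X hKf hKd hx hPt (hG.reindex e.symm) (by simp [hi])
    (hli.comp _ e.symm.injective) hxC hX hT (finrank K (LinearMap.ker φ)) (fun r => (b r : Fin N → K)) ?_ ?_ ?_
  · exact b.linearIndependent.map' (LinearMap.ker φ).subtype (Submodule.ker_subtype _)
  · intro r
    have h1 : Fintype.linearCombination K Y (b r : Fin N → K) = 0 := (b r).2
    rw [Fintype.linearCombination_apply] at h1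
    rw [← h1]
    refine Finset.sum_congr rfl fun i _ => ?_
    rw [Algebra.smul_def]
    rfl
  · have h2 : N - finrank K (LinearMap.ker φ) = finrank K (LinearMap.range φ) := by omega
    rw [h2]
    exact hcon

/-- an integral polynomial with small coefficients has no small zeros -/
theorem aeval_small {P : Polynomial ℤ} (hP : P ≠ 0) {q : ℕ} (hq : P.natDegree ≤ q) {B : ℝ}
    (hB : ∀ l, |((P.coeff l : ℤ) : ℝ)| ≤ B) {x : ℂ} (hx : x ≠ 0) (hx1 : ‖x‖ * (((q : ℝ) + 1) * B + 1) < 1) :
    Polynomial.aeval x P ≠ 0 := by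
  have hB0 : 0 ≤ B := (abs_nonneg _).trans (hB 0)
  have hxn : 0 < ‖x‖ := norm_pos_iff.2 hx
  have hx2 : ‖x‖ < 1 := by
    have : 0 ≤ ‖x‖ * (((q : ℝ) + 1) * B) := by positivity
    nlinarith
  -- the lowest coefficient
  set v := P.natTrailingDegree with hv
  have hv0 : P.coeff v ≠ 0 := by
    have := Polynomial.trailingCoeff_nonzero_iff_nonzero.2 hP
    exact this
  have hlow : ∀ l, l < v → P.coeff l = 0 := fun l hl => Polynomial.coeff_eq_zero_of_lt_natTrailingDegree hl
  have hvq : v ≤ q := (Polynomial.natTrailingDegree_le_natDegree P).trans hq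
  have h1 : Polynomial.aeval x P = x ^ v * ∑ l ∈ Finset.range (q + 1 - v), (P.coeff (v + l) : ℂ) * x ^ l := by
    rw [Polynomial.aeval_eq_sum_range' (n := q + 1) (by omega)]
    rw [← Finset.sum_range_add_sum_Ico _ (show v ≤ q + 1 by omega)]
    rw [Finset.sum_eq_zero (s := Finset.range v) (fun l hl => by
      rw [hlow l (Finset.mem_range.1 hl), zero_smul]), zero_add, Finset.sum_Ico_eq_sum_range, Finset.mul_sum]
    refine Finset.sum_congr rfl fun l _ => ?_
    rw [zsmul_eq_mul, pow_add]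
    ring
  rw [h1]
  refine mul_ne_zero (pow_ne_zero _ hx) ?_
  obtain ⟨n, hn⟩ : ∃ n, q + 1 - v = n + 1 := ⟨q - v, by omega⟩
  rw [hn, Finset.sum_range_succ']
  simp only [add_zero, pow_zero, mul_one]
  intro h2
  have h3 : (1 : ℝ) ≤ ‖(P.coeff v : ℂ)‖ := by
    rw [Complex.norm_intCast]
    have : (1 : ℤ) ≤ |P.coeff v| := Int.one_le_abs hv0
    exact_mod_cast this
  have h4 : ‖∑ l ∈ Finset.range n, (P.coeff (v + (l + 1)) : ℂ) * x ^ (l + 1)‖ ≤ n * (B * ‖x‖) := by
    refine (norm_sum_le _ _).trans ?_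
    refine (Finset.sum_le_card_nsmul _ _ (B * ‖x‖) fun l _ => ?_).trans (by simp)
    rw [norm_mul, Complex.norm_intCast, norm_pow]
    refine mul_le_mul (hB _) ?_ (by positivity) hB0
    rw [pow_succ]
    exact mul_le_of_le_one_left hxn.le (pow_le_one₀ hxn.le hx2.le)
  have h5 : (P.coeff v : ℂ) = -∑ l ∈ Finset.range n, (P.coeff (v + (l + 1)) : ℂ) * x ^ (l + 1) := by
    linear_combination h2
  rw [h5, norm_neg] at h3
  have h6 : (n : ℝ) ≤ q + 1 := by
    have : n ≤ q + 1 := by omega
    exact_mod_cast this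
  have h7 : (n : ℝ) * (B * ‖x‖) ≤ (q + 1) * (B * ‖x‖) := mul_le_mul_of_nonneg_right h6 (by positivity)
  nlinarith

end Pool.Agent.NH25.DG
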