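import Pool.Agent.NH25.DG.Tup
import Pool.Agent.Y921.DB.Spec

/-!
# Relations over the field of definition of the point are specialisations of functional relations over `ℚ̄`
-/

set_option autoImplicit false

open PowerSeries Module

namespace Pool.Agent.NH25.DG

open Pool.Agent.Y113 Pool.Agent.Y113.GG Pool.Agent.Y37.GF Pool.Agent.Y118.HG Pool.Agent.Y921.DB

/-- the algebraic numbers -/
noncomputable abbrev Qb : IntermediateField ℚ ℂ := algebraicClosure ℚ ℂ

/-- every relation with coefficients in `κ` of degree `≤ δ` between the values of `p` at `s` is the specialisation of a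
functional relation over the algebraic numbers -/
def SpecQ {k : ℕ} (κ : IntermediateField ℚ ℂ) {τ : Type} (p : (Fin k → ℂ) → τ → ℂ) (r : ℝ) (δ : ℕ) (s : Fin k → ℂ) :
    Prop :=
  ∀ P : MvPolynomial τ ℂ, P.totalDegree ≤ δ → (∀ e, P.coeff e ∈ κ) → MvPolynomial.aeval (p s) P = 0 →
    ∃ G : MvPolynomial τ (MvPolynomial (Fin k) Qb), G.totalDegree ≤ δ ∧
      (∀ z : Fin k → ℂ, (∀ l, ‖z l‖ < r) → G.eval₂ (MvPolynomial.aeval z : MvPolynomial (Fin k) Qb →ₐ[Qb] ℂ).toRingHom
        (p z) = 0) ∧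
      G.map (MvPolynomial.aeval s : MvPolynomial (Fin k) Qb →ₐ[Qb] ℂ).toRingHom = P

section fields

/-- a field as a space -/
noncomputable abbrev sb (E : IntermediateField ℚ ℂ) : Submodule ℚ ℂ := Subalgebra.toSubmodule E.toSubalgebra

lemma sb_sup (E₁ E₂ : IntermediateField ℚ ℂ) [FiniteDimensional ℚ E₂] : sb (E₁ ⊔ E₂) = sb E₁ * sb E₂ := by
  unfold sb
  rw [IntermediateField.sup_toSubalgebra_of_right, Subalgebra.mul_toSubmodule]

lemma fd_range {k : ℕ} {β : Fin k → ℂ} (hβ : ∀ l, IsIntegral ℚ (β l)) :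
    FiniteDimensional ℚ (IntermediateField.adjoin ℚ (Set.range β)) := by
  refine IntermediateField.finiteDimensional_adjoin ?_
  rintro _ ⟨l, rfl⟩
  exact hβ l

lemma adj_range {k : ℕ} {β : Fin k → ℂ} (hβ : ∀ l, IsIntegral ℚ (β l)) :
    sb (IntermediateField.adjoin ℚ (Set.range β)) = Qp β := by
  induction k with
  | zero =>
    have h1 : Set.range β = ∅ := Set.range_eq_empty _
    rw [h1, IntermediateField.adjoin_empty]
    unfold Qp sb
    rw [Fin.prod_univ_zero, IntermediateField.bot_toSubalgebra, Algebra.toSubmodule_bot]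
  | succ k ih =>
    have h1 : Set.range β = {β 0} ∪ Set.range (fun l : Fin k => β l.succ) := by
      ext x
      simp only [Set.mem_range, Set.singleton_union, Set.mem_insert_iff]
      constructor
      · rintro ⟨l, rfl⟩
        refine Fin.cases (Or.inl rfl) (fun l => Or.inr ⟨l, rfl⟩) l
      · rintro (rfl | ⟨l, rfl⟩)
        · exact ⟨0, rfl⟩
        · exact ⟨l.succ, rfl⟩
    have hfd : FiniteDimensional ℚ (IntermediateField.adjoin ℚ (Set.range (fun l : Fin k => β l.succ))) :=
      fd_range fun l => hβ l.succ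
    rw [h1, IntermediateField.adjoin_union, sb_sup, ih fun l => hβ l.succ, Qp_succ]
    rfl

lemma mem_of_coeff {k : ℕ} (E : IntermediateField ℚ ℂ) (P : MvPolynomial (Fin k) Qb) (hP : ∀ e, ((P.coeff e : Qb) : ℂ) ∈ E)
    {s : Fin k → ℂ} (hs : ∀ l, s l ∈ E) : MvPolynomial.aeval s P ∈ E := by
  rw [MvPolynomial.aeval_def, MvPolynomial.eval₂_eq]
  refine sum_mem fun e _ => mul_mem (hP e) (prod_mem fun i _ => pow_mem (hs i) _)

/-- the descent of a polynomial to the field of its coefficients -/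
lemma exists_desc {τ : Type} (κ : IntermediateField ℚ ℂ) (P : MvPolynomial τ ℂ) (h : ∀ e, P.coeff e ∈ κ) :
    ∃ P' : MvPolynomial τ κ, P'.totalDegree ≤ P.totalDegree ∧ P'.map (algebraMap κ ℂ) = P := by
  classical
  refine ⟨∑ e ∈ P.support, MvPolynomial.monomial e (⟨_, h e⟩ : κ), ?_, ?_⟩
  · refine MvPolynomial.totalDegree_finsetSum_le fun e he => ?_
    exact (MvPolynomial.totalDegree_monomial_le _ _).trans (MvPolynomial.le_totalDegree he)
  · rw [map_sum]
    conv_rhs => rw [P.as_sum]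
    refine Finset.sum_congr rfl fun e _ => ?_
    rw [MvPolynomial.map_monomial]
    rfl

end fields

variable {n k δ : ℕ} {ι : Type} {Z : Fin n → Fin n → ℚ⟦X⟧} (b : Bas Z δ) (lam : Fin k → ι → Option (Fin n × Fin n) → ℂ)
  [Fintype ι]

/-- **The main lemma.** -/
theorem specQ_main {C : ℝ} (hC : 1 ≤ C) (hZ : ∀ i j m, |((coeff m (Z i j) : ℚ) : ℝ)| ≤ C ^ (m + 1)) :
    ∃ (D₁ : ℕ) (Δ : MvPolynomial (Fin k) Qb), Δ ≠ 0 ∧ ∀ K₀ : IntermediateField ℚ ℂ, FiniteDimensional ℚ K₀ →
    ∃ V : Submodule ℚ ℂ, Module.Finite ℚ V ∧ finrank ℚ V ≤ D₁ * finrank ℚ K₀ ∧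
      ∀ s : Fin k → Qb, (∀ l, ‖((s l : Qb) : ℂ)‖ < 1 / C) → NdC b (V * Qp fun l => ((s l : Qb) : ℂ)) (fun l => (s l : ℂ)) →
        MvPolynomial.eval s Δ ≠ 0 →
        SpecQ (K₀ ⊔ IntermediateField.adjoin ℚ (Set.range fun l => ((s l : Qb) : ℂ))) (pt lam Z) (1 / C) δ
          (fun l => (s l : ℂ)) := by
  classical
  obtain ⟨r, v, R, hv, hR⟩ := exists_expand (K := Qb)
    (fun p : (Fin δ → Option (Fin k × ι)) × (Fin k → b.s) => al b lam p.1 p.2)
  obtain ⟨Δ, hΔ, hker⟩ := ker_spec (fun (w : Fin δ → Option (Fin k × ι)) (j : Fin r × (Fin k → b.s)) => R j.1 (w, j.2))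
  set dD : MvPolynomial (Fin k) Qb := ∏ l, Polynomial.aeval (MvPolynomial.X l) b.D with hdD
  have hXD : ∀ l : Fin k, (Polynomial.aeval (MvPolynomial.X l : MvPolynomial (Fin k) Qb) b.D) ≠ 0 := by
    intro l h0
    have h1 := congrArg (MvPolynomial.aeval (fun _ : Fin k => (Polynomial.X : Polynomial Qb))) h0
    rw [aeval_XN, map_zero] at h1
    have h2 : ∀ φ : ℤ →+* Polynomial Qb, Polynomial.eval₂ φ Polynomial.X b.D = b.D.map (Int.castRingHom Qb) := by
      intro φ
      have : φ = Polynomial.C.comp (Int.castRingHom Qb) := Subsingleton.elim _ _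
      rw [this]
      rfl
    rw [Polynomial.aeval_def, h2] at h1
    exact b.hD ((Polynomial.map_eq_zero_iff (RingHom.injective_int _)).1 h1)
  have hdD0 : dD ≠ 0 := Finset.prod_ne_zero_iff.2 fun l _ => hXD l
  -- the field of the coefficients
  set S : Set ℂ := ⋃ j : Fin r × ((Fin δ → Option (Fin k × ι)) × (Fin k → b.s)),
    (fun e => (((R j.1 j.2).coeff e : Qb) : ℂ)) '' ((R j.1 j.2).support : Set (Fin k →₀ ℕ)) with hS
  have hSf : S.Finite := Set.finite_iUnion fun j => ((R j.1 j.2).support.finite_toSet.image _)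
  have hSa : ∀ x ∈ S, IsIntegral ℚ x := by
    intro x hx
    obtain ⟨j, hj⟩ := Set.mem_iUnion.1 hx
    obtain ⟨e, -, rfl⟩ := hj
    exact ((R j.1 j.2).coeff e).2
  set L₀ := IntermediateField.adjoin ℚ S with hL₀
  have hL₀f : FiniteDimensional ℚ L₀ := by
    have := hSf.to_subtype
    exact IntermediateField.finiteDimensional_adjoin hSa
  have hcoef : ∀ (j : Fin r × ((Fin δ → Option (Fin k × ι)) × (Fin k → b.s))) (e : Fin k →₀ ℕ),
      (((R j.1 j.2).coeff e : Qb) : ℂ) ∈ L₀ := by
    intro j e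
    by_cases he : e ∈ (R j.1 j.2).support
    · exact IntermediateField.subset_adjoin ℚ S (Set.mem_iUnion.2 ⟨j, e, he, rfl⟩)
    · rw [MvPolynomial.notMem_support_iff.1 he]
      exact zero_mem _
  refine ⟨r * finrank ℚ L₀, Δ * dD, mul_ne_zero hΔ hdD0, fun K₀ _ => ?_⟩
  set F₀ := K₀ ⊔ L₀ with hF₀
  have hF₀f : FiniteDimensional ℚ F₀ := IntermediateField.finiteDimensional_sup K₀ L₀
  set V : Submodule ℚ ℂ := Submodule.span ℚ (Set.range v) * sb F₀ with hV
  have hVf : Module.Finite ℚ V ∧ finrank ℚ V ≤ r * finrank ℚ L₀ * finrank ℚ K₀ := by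
    have h1 : Module.Finite ℚ (Submodule.span ℚ (Set.range v)) := Module.Finite.span_of_finite ℚ (Set.finite_range _)
    have h2 : Module.Finite ℚ (sb F₀) := hF₀f
    obtain ⟨h3, h4⟩ := finrank_mul_le (Submodule.span ℚ (Set.range v)) (sb F₀)
    refine ⟨h3, h4.trans ?_⟩
    have h5 : finrank ℚ (Submodule.span ℚ (Set.range v)) ≤ r := by
      have := finrank_range_le_card (R := ℚ) v
      rwa [Fintype.card_fin] at this
    have h6 : finrank ℚ (sb F₀) ≤ finrank ℚ K₀ * finrank ℚ L₀ := IntermediateField.finrank_sup_le K₀ L₀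
    calc _ ≤ r * (finrank ℚ K₀ * finrank ℚ L₀) := Nat.mul_le_mul h5 h6
      _ = _ := by ring
  refine ⟨V, hVf.1, hVf.2, fun s hs hN hΔs P hPd hPc hP => ?_⟩
  rw [map_mul] at hΔs
  have hΔ1 := left_ne_zero_of_mul hΔs
  have hρ := right_ne_zero_of_mul hΔs
  set ρ : Qb := MvPolynomial.eval s dD with hρdef
  set z : Fin k → ℂ := fun l => (s l : ℂ) with hz
  have hzK : ∀ Q : MvPolynomial (Fin k) Qb, MvPolynomial.aeval z Q = algebraMap Qb ℂ (MvPolynomial.eval s Q) := by
    intro Q
    have h1 : z = algebraMap Qb ℂ ∘ s := rfl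
    rw [h1, MvPolynomial.aeval_algebraMap_apply]
    rfl
  -- the field of the relation
  set κ := K₀ ⊔ IntermediateField.adjoin ℚ (Set.range z) with hκ
  set F := F₀ ⊔ IntermediateField.adjoin ℚ (Set.range z) with hF
  have hzi : ∀ l, IsIntegral ℚ (z l) := fun l => (s l).2
  have hFs : sb F = sb F₀ * Qp z := by
    have hfd : FiniteDimensional ℚ (IntermediateField.adjoin ℚ (Set.range z)) := fd_range hzi
    rw [hF, sb_sup, adj_range hzi]
  have hκF : κ ≤ F := sup_le_sup_right le_sup_left _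
  have hL₀F : L₀ ≤ F := le_trans le_sup_right le_sup_left
  have hzF : ∀ l, z l ∈ F := fun l => by
    have h1 : z l ∈ IntermediateField.adjoin ℚ (Set.range z) := IntermediateField.subset_adjoin ℚ _ ⟨l, rfl⟩
    exact (le_sup_right : _ ≤ F) h1
  -- expansion
  have hexp : ∀ (x : Fin k → ℂ), (∀ l, ‖x l‖ < 1 / C) → ∀ w : Fin δ → Option (Fin k × ι),
      MvPolynomial.aeval x dD * wv (pt lam Z x) w = ∑ e, (∑ i, v i * MvPolynomial.aeval x (R i (w, e))) *
        ∏ l, wv (zc Z (x l)) (e l : Fin δ → Option (Fin n × Fin n)) := by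
    intro x hx w
    have h1 : MvPolynomial.aeval x dD = ∏ l, Polynomial.aeval (x l) b.D := by
      rw [hdD, map_prod]
      exact Finset.prod_congr rfl fun l _ => aeval_XN _ _ _
    rw [h1, dw b lam hC hZ w hx]
    refine Finset.sum_congr rfl fun e _ => ?_
    congr 1
    rw [hR (w, e), map_sum]
    refine Finset.sum_congr rfl fun i _ => ?_
    rw [map_mul, MvPolynomial.aeval_C, MvPolynomial.aeval_map_algebraMap]
    rfl
  obtain ⟨P', hP'd, hP'⟩ := exists_desc κ P hPc
  obtain ⟨f, hf⟩ := exists_f P' (hP'd.trans hPd)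
  have hfP : ∀ (y : Fin k × ι → ℂ), MvPolynomial.aeval y P = ∑ w, (f w : ℂ) * wv y w := by
    intro y
    rw [← hP', MvPolynomial.aeval_map_algebraMap, hf]
    rfl
  have hfb : ∀ w, ((f w : κ) : ℂ) ∈ Qb := by
    intro w
    have h1 : κ ≤ Qb := by
      rw [hκ, sup_le_iff]
      constructor
      · intro x hx
        exact (mem_algebraicClosure_iff' ).2 (by
          have h2 : IsIntegral ℚ (⟨x, hx⟩ : K₀) := Algebra.IsIntegral.isIntegral _
          exact h2.map (IsScalarTower.toAlgHom ℚ K₀ ℂ))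
      · rw [IntermediateField.adjoin_le_iff]
        rintro _ ⟨l, rfl⟩
        exact (s l).2
    exact h1 (f w).2
  set fb : (Fin δ → Option (Fin k × ι)) → Qb := fun w => ⟨(f w : ℂ), hfb w⟩ with hfbdef
  -- the linear relations
  have hc : ∀ e : Fin k → b.s, ∑ i, v i * algebraMap Qb ℂ (∑ w, fb w * MvPolynomial.eval s (R i (w, e))) = 0 := by
    have hsum : ∑ e : Fin k → b.s, (∑ i, v i * algebraMap Qb ℂ (∑ w, fb w *
        MvPolynomial.eval s (R i (w, e)))) * ∏ l, wv (zc Z (z l)) (e l : Fin δ → Option (Fin n × Fin n)) = 0 := by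
      have h1 : MvPolynomial.aeval z dD * MvPolynomial.aeval (pt lam Z z) P = 0 := by
        have : MvPolynomial.aeval (pt lam Z z) P = 0 := hP
        rw [this, mul_zero]
      rw [hfP, Finset.mul_sum] at h1
      rw [← h1]
      have h2 : ∀ w, MvPolynomial.aeval z dD * ((f w : ℂ) * wv (pt lam Z z) w) =
          ∑ e, (∑ i, v i * algebraMap Qb ℂ (fb w * MvPolynomial.eval s (R i (w, e)))) *
        ∏ l, wv (zc Z (z l)) (e l : Fin δ → Option (Fin n × Fin n)) := by
        intro w
        calc _ = (f w : ℂ) * (MvPolynomial.aeval z dD * wv (pt lam Z z) w) := by ring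
          _ = _ := by
            rw [hexp z hs w, Finset.mul_sum]
            refine Finset.sum_congr rfl fun e _ => ?_
            rw [← mul_assoc, Finset.mul_sum]
            congr 1
            refine Finset.sum_congr rfl fun i _ => ?_
            rw [hzK, map_mul]
            have h3 : algebraMap Qb ℂ (fb w) = (f w : ℂ) := rfl
            rw [h3]
            ring
      rw [Finset.sum_congr rfl fun w _ => h2 w, Finset.sum_comm]
      refine Finset.sum_congr rfl fun e _ => ?_
      rw [← Finset.sum_mul]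
      congr 1
      rw [Finset.sum_comm]
      refine Finset.sum_congr rfl fun i _ => ?_
      rw [map_sum, Finset.mul_sum]
    have h4 := hN _ (fun e => by
      refine Submodule.sum_mem _ fun i _ => ?_
      have h5 : algebraMap Qb ℂ (∑ w, fb w * MvPolynomial.eval s (R i (w, e))) ∈ sb F := by
        show algebraMap Qb ℂ (∑ w, fb w * MvPolynomial.eval s (R i (w, e))) ∈ F
        rw [map_sum]
        refine sum_mem fun w _ => ?_
        rw [map_mul, ← hzK]
        refine mul_mem (hκF (f w).2) ?_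
        exact mem_of_coeff F _ (fun e' => hL₀F (hcoef (i, (w, e)) e')) hzF
      rw [hFs] at h5
      rw [hV, mul_assoc]
      exact Submodule.mul_mem_mul (Submodule.subset_span ⟨i, rfl⟩) h5) hsum
    exact fun e => congrFun h4 e
  obtain ⟨g, hg1, hg2⟩ := hker Qb MvPolynomial.C (MvPolynomial.eval s)
    (by ext x; simp) hΔ1 fb (fun j => by
      have h1 := hc j.2
      have h2 := Fintype.linearIndependent_iff.1 hv (fun i => ∑ w, fb w *
        MvPolynomial.eval s (R i (w, j.2))) (by
          rw [← h1]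
          refine Finset.sum_congr rfl fun i _ => ?_
          rw [Algebra.smul_def, mul_comm]) j.1
      exact h2)
  refine ⟨∑ w, MvPolynomial.C (MvPolynomial.C ρ⁻¹ * dD * g w) * wv (fun i => MvPolynomial.X i) w, ?_, fun x hx => ?_, ?_⟩
  · refine MvPolynomial.totalDegree_finsetSum_le fun w _ => ?_
    refine (MvPolynomial.totalDegree_mul _ _).trans ?_
    rw [MvPolynomial.totalDegree_C, zero_add]
    exact degree_wv w
  · rw [MvPolynomial.eval₂_sum]
    have h1 : ∀ w, MvPolynomial.eval₂ (MvPolynomial.aeval x : MvPolynomial (Fin k) Qb →ₐ[Qb] ℂ).toRingHom (pt lam Z x)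
        (MvPolynomial.C (MvPolynomial.C ρ⁻¹ * dD * g w) * wv (fun i => MvPolynomial.X i) w) =
        ∑ e, ∑ i, (algebraMap Qb ℂ ρ⁻¹ * v i * MvPolynomial.aeval x (g w * R i (w, e))) *
          ∏ l, wv (zc Z (x l)) (e l : Fin δ → Option (Fin n × Fin n)) := by
      intro w
      rw [MvPolynomial.eval₂_mul, MvPolynomial.eval₂_C]
      have h2 : MvPolynomial.eval₂ (MvPolynomial.aeval x : MvPolynomial (Fin k) Qb →ₐ[Qb] ℂ).toRingHom (pt lam Z x)
          (wv (fun i => MvPolynomial.X i) w) = wv (pt lam Z x) w := by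
        have := map_wv (MvPolynomial.eval₂Hom (MvPolynomial.aeval x : MvPolynomial (Fin k) Qb →ₐ[Qb] ℂ).toRingHom
          (pt lam Z x)) (fun i => (MvPolynomial.X i : MvPolynomial (Fin k × ι) (MvPolynomial (Fin k) Qb))) w
        rw [MvPolynomial.coe_eval₂Hom] at this
        rw [this]
        congr 1
        funext i
        exact MvPolynomial.eval₂_X _ _ _
      rw [h2]
      calc _ = algebraMap Qb ℂ ρ⁻¹ * MvPolynomial.aeval x (g w) * (MvPolynomial.aeval x dD * wv (pt lam Z x) w) := by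
            show MvPolynomial.aeval x (MvPolynomial.C ρ⁻¹ * dD * g w) * wv (pt lam Z x) w = _
            rw [map_mul, map_mul, MvPolynomial.aeval_C]
            ring
        _ = _ := by
            rw [hexp x hx w, Finset.mul_sum]
            refine Finset.sum_congr rfl fun e _ => ?_
            rw [← mul_assoc, Finset.mul_sum, Finset.sum_mul]
            refine Finset.sum_congr rfl fun i _ => ?_
            rw [map_mul]
            ring
    rw [Finset.sum_congr rfl fun w _ => h1 w, Finset.sum_comm]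
    refine Finset.sum_eq_zero fun e _ => ?_
    rw [Finset.sum_comm]
    refine Finset.sum_eq_zero fun i _ => ?_
    have h5 : ∑ w, MvPolynomial.aeval x (g w * R i (w, e)) = 0 := by
      rw [← map_sum, hg1 (i, e), map_zero]
    have h6 : ∑ w, algebraMap Qb ℂ ρ⁻¹ * v i * MvPolynomial.aeval x (g w * R i (w, e)) *
        ∏ l, wv (zc Z (x l)) (e l : Fin δ → Option (Fin n × Fin n)) =
        algebraMap Qb ℂ ρ⁻¹ * v i * (∑ w, MvPolynomial.aeval x (g w * R i (w, e))) *
        ∏ l, wv (zc Z (x l)) (e l : Fin δ → Option (Fin n × Fin n)) := by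
      rw [Finset.mul_sum, Finset.sum_mul]
    rw [h6, h5, mul_zero, zero_mul]
  · rw [map_sum]
    have h1 := hf (MvPolynomial (Fin k × ι) κ) MvPolynomial.X
    rw [MvPolynomial.aeval_X_left_apply] at h1
    rw [← hP', h1, map_sum]
    refine Finset.sum_congr rfl fun w _ => ?_
    have h2 : (MvPolynomial.aeval z : MvPolynomial (Fin k) Qb →ₐ[Qb] ℂ).toRingHom (MvPolynomial.C ρ⁻¹ * dD * g w) =
        (f w : ℂ) := by
      show MvPolynomial.aeval z (MvPolynomial.C ρ⁻¹ * dD * g w) = _
      have e1 : MvPolynomial.eval s (MvPolynomial.C ρ⁻¹ * dD * g w) = fb w := by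
        rw [map_mul, map_mul, MvPolynomial.eval_C, hg2, ← hρdef, inv_mul_cancel₀ hρ, one_mul]
      rw [hzK, e1]
      rfl
    rw [map_mul, MvPolynomial.map_C, map_wv, h2, map_mul, map_wv]
    congr 1
    · show _ = MvPolynomial.map (algebraMap κ ℂ) (MvPolynomial.C (f w))
      rw [MvPolynomial.map_C]
      rfl
    · congr 1
      funext i
      rw [MvPolynomial.map_X, MvPolynomial.map_X]

end Pool.Agent.NH25.DG
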