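import Pool.Agent.NH25.DG.Cnt

/-!
# Tuples of algebraic points: counting the degenerate tuples
-/

set_option autoImplicit false

open PowerSeries Module

namespace Pool.Agent.NH25.DG

open Pool.Agent.Y113 Pool.Agent.Y113.GG Pool.Agent.Y37.GF Pool.Agent.Y118.HG Pool.Agent.Y916 Pool.Agent.Y921.DB

/-- the product of the fields generated by the coordinates -/
noncomputable def Qp {k : ℕ} (β : Fin k → ℂ) : Submodule ℚ ℂ := ∏ l, Qs (β l)

theorem Qp_succ {k : ℕ} (β : Fin (k + 1) → ℂ) : Qp β = Qs (β 0) * Qp (fun l => β l.succ) := by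
  unfold Qp
  rw [Fin.prod_univ_succ]

theorem Qp_fin {k : ℕ} {m : Fin k → ℕ} {T : ℝ} {β : Fin k → ℂ} (h : ∀ l, Sl.AInt (m l) T (β l)) :
    Module.Finite ℚ (Qp β) ∧ finrank ℚ (Qp β) ≤ ∏ l, m l := by
  induction k with
  | zero =>
    unfold Qp
    rw [Fin.prod_univ_zero, Submodule.one_eq_span]
    refine ⟨inferInstance, ?_⟩
    rw [finrank_span_singleton (one_ne_zero), Fin.prod_univ_zero]
  | succ k ih =>
    obtain ⟨h1, h2⟩ := ih (m := fun l => m l.succ) fun l => h l.succ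
    obtain ⟨h3, h4⟩ := Qs_fin (h 0)
    obtain ⟨h5, h6⟩ := finrank_mul_le (Qs (β 0)) (Qp fun l => β l.succ)
    rw [Qp_succ]
    refine ⟨h5, h6.trans ?_⟩
    rw [Fin.prod_univ_succ]
    exact Nat.mul_le_mul h4 h2

variable {n : ℕ}

open Classical in
/-- few degenerate tuples -/
theorem ndC_count {f : Polynomial ℚ} {A : Fin n → Fin n → Polynomial ℚ} {Z W : Fin n → Fin n → ℚ⟦X⟧} (h : Dat f A Z W)
    {δ : ℕ} (b : Bas Z δ) {η : ℝ} (hη : 0 < η) (hη1 : η ≤ 1) (k : ℕ) :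
    ∀ (m : Fin k → ℕ) (D : ℕ), ∃ c : ℝ, 0 < c ∧ ∃ C : ℝ, 0 ≤ C ∧ ∀ V : Submodule ℚ ℂ, Module.Finite ℚ V → finrank ℚ V ≤ D →
      ∀ T : ℕ, 1 ≤ T → ∀ a : Fin k → ℕ, (∀ i, 1 ≤ a i ∧ (a i : ℝ) ≤ (T : ℝ) ^ (1 - η)) →
      (((Fintype.piFinset fun l : Fin k => Sl.NF (m l) T).filter fun β =>
        ¬ NdC b (V * Qp β) (fun l => 1 / (β l / a l))).card : ℝ) ≤ C * (T : ℝ) ^ (((∑ l, Sl.Mm (m l) : ℕ) : ℝ) - c) := by
  obtain ⟨G, hG, hwin⟩ := winBad h
  induction k with
  | zero =>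
    intro m D
    refine ⟨1, one_pos, 0, le_rfl, fun V _ _ T _ a _ => ?_⟩
    rw [Finset.filter_false_of_mem, Finset.card_empty]
    · simp
    · intro β _ hβ
      exact hβ (ndC_zero b _)
  | succ k ih =>
    intro m D
    obtain ⟨c₁, hc₁, C₁, hC₁, h₁⟩ := ih (fun l => m l.succ) (D * m 0)
    obtain ⟨c₂, hc₂, C₂, hC₂, h₂⟩ := cnt1 hG (m 0)
      (fun V u => BadV V (fun e : b.s => wv (zc Z (1 / u)) (e : Fin δ → Option (Fin n × Fin n))))
      (fun A₀ D => hwin δ b (m 0) A₀ D) hη hη1 (D * (∏ l : Fin k, m l.succ) * (Fintype.card (Fin k → b.s) + 1))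
    set C₀ : ℝ := (3 * 2 ^ m 0) ^ m 0 * m 0 with hC₀
    have hC₀0 : 0 ≤ C₀ := by positivity
    set Cp : ℝ := ∏ l : Fin k, ((3 * 2 ^ m l.succ) ^ m l.succ * m l.succ : ℝ) with hCp
    have hCp0 : 0 ≤ Cp := by positivity
    refine ⟨min c₁ c₂, lt_min hc₁ hc₂, C₀ * C₁ + Cp * C₂, by positivity, fun V hV hVD T hT a ha => ?_⟩
    have hT1 : (1 : ℝ) ≤ T := by exact_mod_cast hT
    have hT0 : (0 : ℝ) < T := by linarith
    have hpts := Sl.card_NF (m 0) T hT
    set wds : (Fin k → ℂ) → (Fin k → b.s) → ℂ := fun t e =>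
      ∏ l, wv (zc Z (1 / (t l / a l.succ))) (e l : Fin δ → Option (Fin n × Fin n)) with hwds
    set bad₁ : ℂ → Finset (Fin k → ℂ) := fun x => (Fintype.piFinset fun l : Fin k => Sl.NF (m l.succ) T).filter fun t =>
      ¬ NdC b ((V * Qs x) * Qp t) (fun l => 1 / (t l / a l.succ)) with hbad₁
    set bad₂ : (Fin k → ℂ) → Finset ℂ := fun t => (Sl.NF (m 0) T).filter fun x =>
      BadV (((V * Qp t) * sp (wds t)) * Qs x) (fun e : b.s => wv (zc Z (1 / (x / a 0)))
        (e : Fin δ → Option (Fin n × Fin n))) with hbad₂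
    have hsub : ((Fintype.piFinset fun l : Fin (k + 1) => Sl.NF (m l) T).filter fun β =>
        ¬ NdC b (V * Qp β) (fun l => 1 / (β l / a l))) ⊆
        (((Sl.NF (m 0) T).sigma bad₁).image fun p => (Fin.cons p.1 p.2 : Fin (k + 1) → ℂ)) ∪
        (((Fintype.piFinset fun l : Fin k => Sl.NF (m l.succ) T).sigma bad₂).image
          fun p => (Fin.cons p.2 p.1 : Fin (k + 1) → ℂ)) := by
      intro t ht
      obtain ⟨ht1, ht2⟩ := Finset.mem_filter.1 ht
      rw [Fintype.mem_piFinset] at ht1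
      have htail : (fun i => t i.succ) ∈ Fintype.piFinset fun l : Fin k => Sl.NF (m l.succ) T := by
        rw [Fintype.mem_piFinset]
        exact fun i => ht1 i.succ
      have hcons : (Fin.cons (t 0) (fun i => t i.succ) : Fin (k + 1) → ℂ) = t := by
        funext i
        refine Fin.cases ?_ (fun i => ?_) i <;> simp
      rw [Finset.mem_union]
      by_cases h5 : NdC b ((V * Qs (t 0)) * Qp fun i => t i.succ) (fun l : Fin k => 1 / (t l.succ / a l.succ))
      · right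
        by_cases h6 : BadV (((V * Qp fun i => t i.succ) * sp (wds fun i => t i.succ)) * Qs (t 0))
          (fun e : b.s => wv (zc Z (1 / (t 0 / a 0))) (e : Fin δ → Option (Fin n × Fin n)))
        · exact Finset.mem_image.2 ⟨⟨fun i => t i.succ, t 0⟩, Finset.mem_sigma.2
            ⟨htail, Finset.mem_filter.2 ⟨ht1 0, h6⟩⟩, hcons⟩
        · exfalso
          apply ht2
          refine ndC_split b ?_ ?_
          · have : V * Qp t = (V * Qs (t 0)) * Qp fun i => t i.succ := by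
              rw [Qp_succ, mul_assoc]
            rw [this]
            exact h5
          · have : V * Qp t * sp (fun e : Fin k → b.s => ∏ l : Fin k, wv (zc Z (1 / (t l.succ / a l.succ)))
                (e l : Fin δ → Option (Fin n × Fin n))) =
                ((V * Qp fun i => t i.succ) * sp (wds fun i => t i.succ)) * Qs (t 0) := by
              rw [Qp_succ]
              have e1 : sp (wds fun i => t i.succ) = sp (fun e : Fin k → b.s => ∏ l : Fin k,
                wv (zc Z (1 / (t l.succ / a l.succ))) (e l : Fin δ → Option (Fin n × Fin n))) := rfl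
              rw [e1]
              ring
            rw [this]
            exact h6
      · left
        exact Finset.mem_image.2 ⟨⟨t 0, fun i => t i.succ⟩, Finset.mem_sigma.2
          ⟨ht1 0, Finset.mem_filter.2 ⟨htail, h5⟩⟩, hcons⟩
    have hcard : (((Fintype.piFinset fun l : Fin (k + 1) => Sl.NF (m l) T).filter fun β =>
        ¬ NdC b (V * Qp β) (fun l => 1 / (β l / a l))).card : ℝ) ≤
        (C₀ * (T : ℝ) ^ Sl.Mm (m 0)) * (C₁ * (T : ℝ) ^ (((∑ l : Fin k, Sl.Mm (m l.succ) : ℕ) : ℝ) - c₁)) +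
        (Cp * (T : ℝ) ^ (∑ l : Fin k, Sl.Mm (m l.succ))) * (C₂ * (T : ℝ) ^ ((Sl.Mm (m 0) : ℝ) - c₂)) := by
      have h3 : (((Fintype.piFinset fun l : Fin (k + 1) => Sl.NF (m l) T).filter fun β =>
          ¬ NdC b (V * Qp β) (fun l => 1 / (β l / a l))).card : ℝ) ≤
          (((Sl.NF (m 0) T).sigma bad₁).card : ℝ) + (((Fintype.piFinset fun l : Fin k => Sl.NF (m l.succ) T).sigma bad₂).card : ℝ) := by
        exact_mod_cast (Finset.card_le_card hsub).trans ((Finset.card_union_le _ _).trans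
          (add_le_add Finset.card_image_le Finset.card_image_le))
      refine h3.trans (add_le_add ?_ ?_)
      · rw [Finset.card_sigma, Nat.cast_sum]
        have h4 : ∀ x ∈ Sl.NF (m 0) T, ((bad₁ x).card : ℝ) ≤ C₁ * (T : ℝ) ^ (((∑ l : Fin k, Sl.Mm (m l.succ) : ℕ) : ℝ) - c₁) := by
          intro x hx
          obtain ⟨hQf, hQd⟩ := Qs_fin (Sl.mem_NF.1 hx)
          obtain ⟨hq1, hq2⟩ := finrank_mul_le V (Qs x)
          exact h₁ (V * Qs x) hq1 (hq2.trans (Nat.mul_le_mul hVD hQd)) T hT (fun i => a i.succ) fun i => ha i.succ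
        refine (Finset.sum_le_card_nsmul _ _ _ h4).trans ?_
        rw [nsmul_eq_mul]
        exact mul_le_mul_of_nonneg_right hpts (by positivity)
      · rw [Finset.card_sigma, Nat.cast_sum]
        have h4 : ∀ t ∈ Fintype.piFinset (fun l : Fin k => Sl.NF (m l.succ) T), ((bad₂ t).card : ℝ) ≤
            C₂ * (T : ℝ) ^ ((Sl.Mm (m 0) : ℝ) - c₂) := by
          intro t ht
          rw [Fintype.mem_piFinset] at ht
          obtain ⟨hQf, hQd⟩ := Qp_fin fun l => Sl.mem_NF.1 (ht l)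
          obtain ⟨hq1, hq2⟩ := finrank_mul_le V (Qp t)
          obtain ⟨hs1, hs2⟩ := sp_fin (wds t)
          obtain ⟨hr1, hr2⟩ := finrank_mul_le (V * Qp t) (sp (wds t))
          refine h₂ _ hr1 (hr2.trans ?_) T hT (a 0) (ha 0)
          exact Nat.mul_le_mul (hq2.trans (Nat.mul_le_mul hVD hQd)) hs2
        refine (Finset.sum_le_card_nsmul _ _ _ h4).trans ?_
        rw [nsmul_eq_mul, Fintype.card_piFinset]
        refine mul_le_mul_of_nonneg_right ?_ (by positivity)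
        rw [Nat.cast_prod, ← Finset.prod_pow_eq_pow_sum, hCp, ← Finset.prod_mul_distrib]
        exact Finset.prod_le_prod (fun _ _ => Nat.cast_nonneg _) fun l _ => Sl.card_NF (m l.succ) T hT
    refine hcard.trans ?_
    have e0 : (((∑ l, Sl.Mm (m l) : ℕ) : ℝ)) = (Sl.Mm (m 0) : ℝ) + ((∑ l : Fin k, Sl.Mm (m l.succ) : ℕ) : ℝ) := by
      rw [Fin.sum_univ_succ]
      push_cast
      ring
    have e1 : (C₀ * (T : ℝ) ^ Sl.Mm (m 0)) * (C₁ * (T : ℝ) ^ (((∑ l : Fin k, Sl.Mm (m l.succ) : ℕ) : ℝ) - c₁)) =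
        C₀ * C₁ * (T : ℝ) ^ ((((∑ l, Sl.Mm (m l) : ℕ)) : ℝ) - c₁) := by
      have : ((((∑ l, Sl.Mm (m l) : ℕ)) : ℝ) - c₁) =
          (Sl.Mm (m 0) : ℝ) + (((∑ l : Fin k, Sl.Mm (m l.succ) : ℕ) : ℝ) - c₁) := by rw [e0]; ring
      rw [this, Real.rpow_add hT0, Real.rpow_natCast]
      ring
    have e2 : (Cp * (T : ℝ) ^ (∑ l : Fin k, Sl.Mm (m l.succ))) * (C₂ * (T : ℝ) ^ ((Sl.Mm (m 0) : ℝ) - c₂)) =
        Cp * C₂ * (T : ℝ) ^ ((((∑ l, Sl.Mm (m l) : ℕ)) : ℝ) - c₂) := by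
      have : ((((∑ l, Sl.Mm (m l) : ℕ)) : ℝ) - c₂) =
          ((∑ l : Fin k, Sl.Mm (m l.succ) : ℕ) : ℝ) + ((Sl.Mm (m 0) : ℝ) - c₂) := by rw [e0]; ring
      rw [this, Real.rpow_add hT0, Real.rpow_natCast]
      ring
    rw [e1, e2, add_mul (C₀ * C₁)]
    refine add_le_add (mul_le_mul_of_nonneg_left ?_ (mul_nonneg hC₀0 hC₁))
      (mul_le_mul_of_nonneg_left ?_ (mul_nonneg hCp0 hC₂))
    · exact Real.rpow_le_rpow_of_exponent_le hT1 (by linarith [min_le_left c₁ c₂])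
    · exact Real.rpow_le_rpow_of_exponent_le hT1 (by linarith [min_le_right c₁ c₂])

end Pool.Agent.NH25.DG
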