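import Pool.Agent.NH25.DG.Rk
import Pool.Agent.Y118.HG.Defs2
import Pool.Agent.Y916.Al.Win

/-!
# Windows of algebraic points, abstract form
-/

set_option autoImplicit false

open PowerSeries Module

namespace Pool.Agent.NH25.DG

open Pool.Agent.Y113 Pool.Agent.Y916.Al Pool.Agent.Y118.HG

/-- the number of blocks -/
lemma exists_blocks (c N : ℕ) : ∃ R : ℕ, ∀ n : ℕ, 1 ≤ n → n ≤ N → c * (n - 1) ^ R ≤ n ^ R := by
  have h : ∀ n : ℕ, ∃ R : ℕ, 1 ≤ n → ∀ R', R ≤ R' → c * (n - 1) ^ R' ≤ n ^ R' := by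
    intro n
    by_cases hn : 1 ≤ n
    swap
    · exact ⟨0, fun h => absurd h hn⟩
    have hn0 : (0 : ℝ) < n := by exact_mod_cast hn
    have h1 : Filter.Tendsto (fun R : ℕ => (c : ℝ) * (((n : ℝ) - 1) / n) ^ R) Filter.atTop (nhds ((c : ℝ) * 0)) := by
      refine Filter.Tendsto.const_mul _ (tendsto_pow_atTop_nhds_zero_of_lt_one ?_ ?_)
      · have : (1 : ℝ) ≤ n := by exact_mod_cast hn
        exact div_nonneg (by linarith) hn0.le
      · rw [div_lt_one hn0]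
        linarith
    rw [mul_zero] at h1
    obtain ⟨R, hR⟩ := (h1.eventually_le_const (show (0 : ℝ) < 1 by norm_num)).exists_forall_of_atTop
    refine ⟨R, fun _ R' hR' => ?_⟩
    have h2 := hR R' hR'
    rw [div_pow, ← mul_div_assoc, div_le_one (by positivity)] at h2
    have h3 : ((n - 1 : ℕ) : ℝ) = (n : ℝ) - 1 := by
      rw [Nat.cast_sub hn]
      simp
    have h4 : ((c * (n - 1) ^ R' : ℕ) : ℝ) ≤ ((n ^ R' : ℕ) : ℝ) := by
      push_cast
      rw [h3]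
      exact h2
    exact_mod_cast h4
  choose R hR using h
  refine ⟨∑ n ∈ Finset.range (N + 1), R n, fun n hn hnN => hR n hn _ ?_⟩
  exact Finset.single_le_sum (f := R) (fun _ _ => Nat.zero_le _) (Finset.mem_range.2 (by omega))

/-- a bad point: a relation with coefficients in `V` between the values -/
def BadV {κ : Type} [Fintype κ] (V : Submodule ℚ ℂ) (y : κ → ℂ) : Prop :=
  ∃ c : κ → ℂ, c ≠ 0 ∧ (∀ e, c e ∈ V) ∧ ∑ e, c e * y e = 0

/-- `dim V` bad points give a dependence relation -/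
lemma dep_of_bad (K : IntermediateField ℚ ℂ) {κ : Type} [Fintype κ] (V : Submodule ℚ ℂ) [Module.Finite ℚ V]
    {m : ℕ} (hm : finrank ℚ V = m) (hV : 0 < m) (y : Fin m → κ → ℂ) (h : ∀ l, BadV V (y l)) :
    ¬ LinearIndependent K (fun b : Fin m → κ => ∏ l, y l (b l)) := by
  classical
  subst hm
  intro hli
  have hliQ : LinearIndependent ℚ (fun b : Fin (finrank ℚ V) → κ => ∏ l, y l (b l)) := hli.restrict_scalars' ℚ
  choose c hc0 hcV hcr using h
  set bV := Module.finBasis ℚ V with hbV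
  have hsum : ∀ (x : V), ∑ j, ((bV.repr x j : ℚ) : ℂ) * (bV j : ℂ) = (x : ℂ) := by
    intro x
    have h1 := bV.sum_repr x
    have h2 := congrArg (Submodule.subtype V) h1
    rw [map_sum] at h2
    simp only [map_smul, Submodule.subtype_apply] at h2
    rw [← h2]
    exact Finset.sum_congr rfl fun j _ => by rw [Algebra.smul_def]; rfl
  obtain ⟨l, hl⟩ := elimC (finrank ℚ V) κ y (fun j => (bV j : ℂ)) (fun l j b => bV.repr ⟨c l b, hcV l b⟩ j) hliQ
    (by
      have := bV.linearIndependent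
      exact this.map' (Submodule.subtype V) (Submodule.ker_subtype V)) (by
      intro l
      rw [Finset.sum_comm, ← hcr l]
      refine Finset.sum_congr rfl fun b _ => ?_
      calc ∑ j, ((bV.repr ⟨c l b, hcV l b⟩ j : ℚ) : ℂ) * y l b * (bV j : ℂ)
          = (∑ j, ((bV.repr ⟨c l b, hcV l b⟩ j : ℚ) : ℂ) * (bV j : ℂ)) * y l b := by
            rw [Finset.sum_mul]
            exact Finset.sum_congr rfl fun j _ => by ring
        _ = _ := by rw [hsum]) hV
  apply hc0 l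
  funext b
  have h1 := hsum ⟨c l b, hcV l b⟩
  have h2 : ∀ j, bV.repr ⟨c l b, hcV l b⟩ j = 0 := fun j => by
    have := congrFun (congrFun hl j) b
    simpa using this
  have h3 : (c l b : ℂ) = 0 := by
    have h4 : ((⟨c l b, hcV l b⟩ : V) : ℂ) = 0 := by
      rw [← h1]
      exact Finset.sum_eq_zero fun j _ => by rw [h2]; simp
    exact h4
  exact h3

/-- **Windows.** -/
theorem win_abs {κ : Type} [Fintype κ] (k0 : κ) (G0 : ℕ) (TT : ℕ → Polynomial ℤ) (w : ℕ → κ → ℚ⟦X⟧) (hG0 : 0 < G0)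
    (hw1 : ∀ g, w g k0 = 1)
    (hsys : ∀ r : ℕ, ∃ q E : ℕ, ∀ (H : ℕ) (g : Fin r → ℕ), (∀ l, g l ≤ H) →
      GSys q (((H : ℝ) + 2) ^ E) (∏ l, TT (g l)) (fun e : Fin r → κ => ∏ l, w (g l) (e l)))
    (hLI : ∀ (r : ℕ) (g : Fin r → ℕ), SepN G0 g →
      LinearIndependent (Polynomial ℚ) (fun e : Fin r → κ => ∏ l, w (g l) (e l)))
    (hTT : ∀ g, TT g ≠ 0) (m A D : ℕ) :
    ∃ M E : ℕ, ∀ V : Submodule ℚ ℂ, Module.Finite ℚ V → finrank ℚ V ≤ D → ∀ (H : ℕ) (K : IntermediateField ℚ ℂ)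
      (ξ : K) (X : ℝ), FiniteDimensional ℚ K → finrank ℚ K ≤ m → Pt K ξ X → ((H : ℝ) + 2) ^ E ≤ ‖(ξ : ℂ)‖ →
      X ≤ ‖(ξ : ℂ)‖ ^ A → ∀ S : Finset ℕ,
      (∀ g ∈ S, g ≤ H ∧ BadV V (fun e : κ => evc (1 / (ξ : ℂ)) (w (G0 * g) e))) → S.card ≤ M := by
  classical
  have hκ : 1 ≤ Fintype.card κ := Fintype.card_pos_iff.2 ⟨k0⟩
  choose qF EF hF using hsys
  obtain ⟨R, hR⟩ := exists_blocks (2 * (A + 1) * m) (Fintype.card κ ^ D)
  choose EG hG using fun r => gk_span m (A + 1) (Fintype.card (Fin r → κ)) (qF r)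
  -- the exponents
  set r₁ : ℕ := R * D with hr₁
  set E : ℕ := (G0 + 1) * (1 + (∑ r ∈ Finset.range (r₁ + 1), ((EF r + 2) * EG r + (EF r + qF r + 4)))) +
    (G0 + 1) * (EF 1 + 1) + 1 with hE
  have hEa : (G0 + 1) * 1 ≤ E := by
    have h1 := Nat.mul_le_mul_left (G0 + 1) (show 1 ≤ 1 + (∑ r ∈ Finset.range (r₁ + 1),
      ((EF r + 2) * EG r + (EF r + qF r + 4))) by omega)
    omega
  have hEb : (G0 + 1) * (EF 1 + 1) ≤ E := by omega
  have hEc : ∀ r, r ≤ r₁ → ∀ a, a ≤ (EF r + 2) * EG r + (EF r + qF r + 4) → (G0 + 1) * a ≤ E := by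
    intro r hr a ha
    have h1 := Finset.single_le_sum (f := fun r => ((EF r + 2) * EG r + (EF r + qF r + 4))) (fun _ _ => Nat.zero_le _)
      (Finset.mem_range.2 (show r < r₁ + 1 by omega))
    have h2 := Nat.mul_le_mul_left (G0 + 1) (show a ≤ 1 + (∑ r ∈ Finset.range (r₁ + 1),
      ((EF r + 2) * EG r + (EF r + qF r + 4))) from ha.trans (h1.trans (by omega)))
    omega
  refine ⟨R * D, E, ?_⟩
  intro V hVf hVD H K ξ X hKf hKd hPt hξH hXξ S hS
  by_contra hcard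
  rw [not_le] at hcard
  -- the dimension of `V`
  set m₀ := finrank ℚ V with hm₀
  have hm₀0 : 0 < m₀ := by
    rw [Nat.pos_iff_ne_zero]
    intro h0
    have hS0 : S.Nonempty := Finset.card_pos.1 (by omega)
    obtain ⟨g, hg⟩ := hS0
    obtain ⟨-, c, hc0, hcV, -⟩ := hS g hg
    have hbot : V = ⊥ := Submodule.finrank_eq_zero.1 h0
    apply hc0
    funext e
    have := hcV e
    rw [hbot, Submodule.mem_bot] at this
    exact this
  set r : ℕ := R * m₀ with hr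
  have hrr₁ : r ≤ r₁ := Nat.mul_le_mul_left _ hVD
  -- the points
  obtain ⟨f⟩ : Nonempty (Fin r ↪ S) := by
    refine Function.Embedding.nonempty_of_card_le ?_
    rw [Fintype.card_fin, Fintype.card_coe]
    omega
  set g : Fin r → ℕ := fun l => G0 * (f l : ℕ) with hg
  set H' : ℕ := G0 * H with hH'
  have hgH : ∀ l, g l ≤ H' := fun l => Nat.mul_le_mul_left _ (hS _ (f l).2).1
  have hsep : SepN G0 g := by
    intro l l' hll
    have h1 : (f l : ℕ) ≠ (f l' : ℕ) := fun h => hll (f.injective (Subtype.ext h))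
    have h2 : (1 : ℤ) ≤ |((f l : ℕ) : ℤ) - ((f l' : ℕ) : ℤ)| := Int.one_le_abs (sub_ne_zero.2 (by exact_mod_cast h1))
    show (G0 : ℤ) ≤ |((G0 * (f l : ℕ) : ℕ) : ℤ) - ((G0 * (f l' : ℕ) : ℕ) : ℤ)|
    push_cast
    rw [← mul_sub, abs_mul, abs_of_nonneg (show (0 : ℤ) ≤ G0 by omega)]
    have h3 : (0 : ℤ) ≤ G0 := by omega
    nlinarith
  -- sizes
  have hH0 : (0 : ℝ) ≤ H := Nat.cast_nonneg H
  have hH1 : (1 : ℝ) ≤ (H : ℝ) + 2 := by linarith
  have hH'2 : (H' : ℝ) + 2 ≤ ((H : ℝ) + 2) ^ (G0 + 1) := by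
    have h1 : (G0 : ℝ) + 1 ≤ ((H : ℝ) + 2) ^ G0 := by
      have h2 : ((G0 : ℝ)) + 1 ≤ (2 : ℝ) ^ G0 := by
        have : G0 + 1 ≤ 2 ^ G0 := Nat.lt_two_pow_self
        exact_mod_cast this
      exact h2.trans (pow_le_pow_left₀ (by norm_num) (by linarith) _)
    rw [pow_succ]
    have h3 : (H' : ℝ) = G0 * H := by rw [hH']; push_cast; ring
    rw [h3]
    have h4 : (0 : ℝ) ≤ G0 := Nat.cast_nonneg _
    calc (G0 : ℝ) * H + 2 ≤ (G0 + 1) * (H + 2) := by nlinarith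
      _ ≤ _ := mul_le_mul_of_nonneg_right h1 (by linarith)
  have hH'0 : (0 : ℝ) ≤ H' := Nat.cast_nonneg _
  have hH'1 : (1 : ℝ) ≤ (H' : ℝ) + 2 := by linarith
  have hH'p : ∀ a, (G0 + 1) * a ≤ E → ((H' : ℝ) + 2) ^ a ≤ ‖(ξ : ℂ)‖ := by
    intro a ha
    refine (pow_le_pow_left₀ (by linarith) hH'2 a).trans ?_
    rw [← pow_mul]
    exact (pow_le_pow_right₀ hH1 ha).trans hξH
  have hξ2 : (H' : ℝ) + 2 ≤ ‖(ξ : ℂ)‖ := by
    have h1 := hH'p 1 hEa
    rwa [pow_one] at h1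
  have hξpos : 0 < ‖(ξ : ℂ)‖ := by linarith
  have hξ1 : 1 ≤ ‖(ξ : ℂ)‖ := by linarith
  have hξC : (ξ : ℂ) ≠ 0 := norm_pos_iff.1 hξpos
  have hξ0 : ξ ≠ 0 := by
    rintro rfl
    exact hξC rfl
  have hX0 : 0 ≤ X := by
    obtain ⟨u, v, -, -, -, -, hσ⟩ := hPt
    exact (norm_nonneg _).trans (hσ (algebraMap K ℂ)).1
  set x : K := 1 / ((1 : ℕ) * ξ) with hx
  have hxC : (x : ℂ) = 1 / (ξ : ℂ) := by
    rw [hx]
    push_cast
    rw [one_mul]
  have hxn : ‖(x : ℂ)‖ = 1 / ‖(ξ : ℂ)‖ := by rw [hxC, norm_div, norm_one]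
  have hx0 : (x : ℂ) ≠ 0 := by
    rw [hxC]
    exact one_div_ne_zero hξC
  have hxK0 : x ≠ 0 := by
    intro h
    exact hx0 (by rw [h]; rfl)
  have hgs := hF r H' g hgH
  set Cc : ℝ := ((H' : ℝ) + 2) ^ EF r with hCc
  have hCc1 : 1 ≤ Cc := one_le_pow₀ hH'1
  -- the lower bound for the dimension
  have hlow := hG r Cc (∏ l, TT (g l)) (Fin r → κ) (fun e => ∏ l, w (g l) (e l)) (fun _ => k0) K x ((1 : ℕ) * X) rfl hKf hKd
    hxK0 (Pt.inv hX0 hξ0 hPt 1 le_rfl) hgs (Finset.prod_eq_one fun l _ => hw1 _) (hLI r g hsep) (by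
      rw [hxn, one_div, inv_mul_le_iff₀ hξpos, mul_one]
      have h1 : (2 * Cc) ^ EG r ≤ ((H' : ℝ) + 2) ^ ((EF r + 1) * EG r) := by
        rw [pow_mul]
        refine pow_le_pow_left₀ (by positivity) ?_ _
        rw [pow_succ, mul_comm]
        exact mul_le_mul_of_nonneg_left (by linarith) (by positivity)
      refine h1.trans (hH'p _ (hEc r hrr₁ _ ?_))
      have h2 := Nat.mul_le_mul_right (EG r) (show EF r + 1 ≤ EF r + 2 by omega)
      omega) (by
      rw [hxn, Nat.cast_one, one_mul, one_div, inv_pow, ← div_eq_mul_inv, div_le_one (by positivity)]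
      exact hXξ.trans (pow_le_pow_right₀ hξ1 (by omega))) (by
      refine aeval_small (Finset.prod_ne_zero_iff.2 fun l _ => hTT _) hgs.degT hgs.sizeT hx0 ?_
      rw [hxn, one_div, inv_mul_lt_iff₀ hξpos, mul_one]
      have h1 : ((qF r : ℝ) + 1) * Cc + 1 < ((H' : ℝ) + 2) ^ (qF r + EF r + 2) := by
        have h2 : ((qF r : ℝ) + 1) ≤ ((H' : ℝ) + 2) ^ qF r := by
          have h3 : (qF r : ℝ) + 1 ≤ 2 ^ qF r := by
            have : qF r + 1 ≤ 2 ^ qF r := Nat.lt_two_pow_self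
            exact_mod_cast this
          exact h3.trans (pow_le_pow_left₀ (by norm_num) (by linarith) _)
        have h4 : ((qF r : ℝ) + 1) * Cc ≤ ((H' : ℝ) + 2) ^ (qF r + EF r) := by
          rw [pow_add]
          exact mul_le_mul_of_nonneg_right h2 (by positivity)
        have h5 : (1 : ℝ) ≤ ((H' : ℝ) + 2) ^ (qF r + EF r) := one_le_pow₀ hH'1
        have h6 : (4 : ℝ) ≤ ((H' : ℝ) + 2) ^ 2 := by nlinarith
        rw [pow_add _ (qF r + EF r) 2]
        have h7 := mul_le_mul_of_nonneg_left h6 (by linarith : (0 : ℝ) ≤ ((H' : ℝ) + 2) ^ (qF r + EF r))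
        linarith
      exact h1.trans_le (hH'p _ (hEc r hrr₁ _ (by omega))))
  -- the upper bound
  have hconv : ∀ (l : Fin r) (e : κ), Cvc (x : ℂ) (w (g l) e) := by
    intro l e
    refine Cvc.of_bound (A := ((H' : ℝ) + 2) ^ EF 1) (B := ((H' : ℝ) + 2) ^ EF 1) (by positivity) ?_ fun n => ?_
    · rw [hxn, mul_one_div, div_lt_one hξpos]
      refine lt_of_lt_of_le ?_ (hH'p (EF 1 + 1) hEb)
      exact pow_lt_pow_right₀ (by linarith) (by omega)
    · rw [← pow_succ', Complex.norm_ratCast]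
      have h1 := (hF 1 H' (fun _ => g l) fun _ => hgH l).size (fun _ => e) n
      simpa using h1
  set y : Fin R → Fin m₀ → κ → ℂ := fun i l e => evc (x : ℂ) (w (g (finProdFinEquiv (i, l))) e) with hy
  have hup := blocks_le (K := K) y (fun i => dep_of_bad K V rfl hm₀0 (y i) fun l => by
    have h1 := (hS _ (f (finProdFinEquiv (i, l))).2).2
    rw [← hxC] at h1
    exact h1)
  have hrange : Set.range (fun e : Fin r → κ => evc (x : ℂ) (∏ l, w (g l) (e l))) ⊆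
      Set.range (fun e : Fin R → Fin m₀ → κ => ∏ i, ∏ l, y i l (e i l)) := by
    rintro _ ⟨e, rfl⟩
    refine ⟨fun i l => e (finProdFinEquiv (i, l)), ?_⟩
    show _ = evc (x : ℂ) (∏ l, w (g l) (e l))
    rw [Cvc.ev_prod _ _ fun l _ => hconv l _, ← finProdFinEquiv.prod_comp, Fintype.prod_prod_type]
  have hfin : Module.Finite K (Submodule.span K
      (Set.range (fun e : Fin R → Fin m₀ → κ => ∏ i, ∏ l, y i l (e i l)))) :=
    Module.Finite.span_of_finite K (Set.finite_range _)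
  have h8 := (Submodule.finrank_mono (Submodule.span_mono (R := K) hrange)).trans hup
  have h9 := hR (Fintype.card κ ^ m₀) (Nat.one_le_pow _ _ hκ) (Nat.pow_le_pow_right hκ hVD)
  have h10 : Fintype.card (Fin r → κ) = (Fintype.card κ ^ m₀) ^ R := by
    rw [Fintype.card_fun, Fintype.card_fin, hr, ← pow_mul, mul_comm]
  rw [h10] at hlow
  have h11 : 2 * (A + 1) * m * finrank K (Submodule.span K
      (Set.range fun e : Fin r → κ => evc (x : ℂ) (∏ l, w (g l) (e l)))) ≤ (Fintype.card κ ^ m₀) ^ R :=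
    (Nat.mul_le_mul_left _ h8).trans h9
  exact absurd (hlow.trans_le h11) (lt_irrefl _)

end Pool.Agent.NH25.DG
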